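import Pool.Agent.H10.GoldLoc.Est

/-!
Asymptotic estimates.
-/

namespace Pool.Agent.H10.GoldLoc

open Finset Filter Topology

lemma tendsto_log_nat : Tendsto (fun z : ℕ => Real.log z) atTop atTop :=
  Real.tendsto_log_atTop.comp tendsto_natCast_atTop_atTop

/-- `C L^11 exp(-L^η) ≤ log L / L` for large `L`. -/
lemma ev_exp (C : ℝ) {η : ℝ} (hη : 0 < η) :
    ∀ᶠ L : ℝ in atTop, C * L ^ 11 * Real.exp (-(L ^ η)) ≤ Real.log L / L := by
  have h1 := tendsto_rpow_mul_exp_neg_mul_atTop_nhds_zero (12 / η) 1 one_pos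
  have h2 : Tendsto (fun L : ℝ => (L ^ η) ^ (12 / η) * Real.exp (-1 * L ^ η)) atTop (𝓝 0) :=
    h1.comp (tendsto_rpow_atTop hη)
  have h3 := h2.const_mul C
  rw [mul_zero] at h3
  have h4 := h3.eventually (ge_mem_nhds (show (0 : ℝ) < 1 by norm_num))
  filter_upwards [h4, eventually_ge_atTop (Real.exp 1)] with L hL he
  have hL0 : 0 < L := (Real.exp_pos 1).trans_le he
  have hlog : 1 ≤ Real.log L := by
    rw [Real.le_log_iff_exp_le hL0]; exact he
  have e1 : (L ^ η) ^ (12 / η) = L ^ 12 := by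
    rw [← Real.rpow_mul hL0.le, mul_div_cancel₀ _ hη.ne']
    norm_cast
  rw [e1, neg_one_mul] at hL
  rw [le_div_iff₀ hL0]
  calc C * L ^ 11 * Real.exp (-(L ^ η)) * L = C * (L ^ 12 * Real.exp (-(L ^ η))) := by ring
    _ ≤ 1 := hL
    _ ≤ _ := hlog

/-- `C (log L)^m L^(-κ) ≤ δ` for large `L`. -/
lemma ev_log_pow (C : ℝ) (m : ℕ) {κ δ : ℝ} (hκ : 0 < κ) (hδ : 0 < δ) :
    ∀ᶠ L : ℝ in atTop, C * Real.log L ^ m * L ^ (-κ) ≤ δ := by
  have h1 := (isLittleO_log_rpow_rpow_atTop (m : ℝ) hκ).tendsto_div_nhds_zero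
  have h3 := h1.const_mul C
  rw [mul_zero] at h3
  have h4 := h3.eventually (ge_mem_nhds hδ)
  filter_upwards [h4, eventually_gt_atTop 0] with L hL h0
  rw [Real.rpow_natCast] at hL
  rw [Real.rpow_neg h0.le, mul_assoc, ← div_eq_mul_inv]
  exact hL

section

variable {η : ℝ}

/-- Number of integers without prime factors in the medium range. -/
theorem ev_RR (hη : 0 < η) (hη1 : η < 1) : ∀ᶠ z : ℕ in atTop, ∀ Y : ℕ, z ≤ Y →
    (Y : ℝ) ≤ z * Real.log z ^ 4 →
    ((RR (PP ⌊Real.exp (Real.log z ^ (1 - η))⌋₊ (z / 8)) Y).card : ℝ)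
      ≤ 50 * Y * Real.log (Real.log z) / Real.log z := by
  obtain ⟨C, hC, hR⟩ := exists_RR
  have hη1' : 0 < 1 - η := by linarith
  have e1 := tendsto_log_nat.eventually (ev_exp C hη)
  have e2 := tendsto_log_nat.eventually
    ((tendsto_rpow_atTop hη1').eventually (eventually_ge_atTop (7 : ℝ)))
  have e3 := tendsto_log_nat.eventually (eventually_ge_atTop (6 : ℝ))
  have e4 := tendsto_log_nat.eventually
    (Real.tendsto_log_atTop.eventually (eventually_ge_atTop (2 : ℝ)))
  filter_upwards [e1, e2, e3, e4, eventually_ge_atTop 16] with z h1 h2 h3 h4 hz16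
  intro Y hzY hY
  set L := Real.log z with hL
  set w := ⌊Real.exp (L ^ (1 - η))⌋₊ with hw
  have hL0 : 0 < L := by linarith
  have hL1 : 1 ≤ L := by linarith
  have hz0 : (0 : ℝ) < z := by exact_mod_cast (by omega : 0 < z)
  have hY0 : (0 : ℝ) < Y := by exact_mod_cast (by omega : 0 < Y)
  have hexp7 : (1024 : ℝ) ≤ Real.exp (L ^ (1 - η)) := by
    calc (1024 : ℝ) ≤ Real.exp 1 ^ 7 := by
          have := Real.exp_one_gt_d9
          calc (1024 : ℝ) ≤ 2.7182818283 ^ 7 := by norm_num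
            _ ≤ _ := pow_le_pow_left₀ (by norm_num) this.le 7
      _ = Real.exp 7 := by rw [← Real.exp_nat_mul]; norm_num
      _ ≤ _ := Real.exp_le_exp.mpr h2
  have hw1024 : 1024 ≤ w := Nat.le_floor (by exact_mod_cast hexp7)
  have hw0 : (0 : ℝ) < w := by exact_mod_cast (by omega : 0 < w)
  have hlw0 : 0 < Real.log w := Real.log_pos (by exact_mod_cast (by omega : 1 < w))
  have hlw : Real.log w ≤ L ^ (1 - η) := by
    rw [Real.log_le_iff_le_exp hw0]
    exact Nat.floor_le (Real.exp_pos _).le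
  have hlwL : Real.log w ≤ L := by
    refine hlw.trans ?_
    calc L ^ (1 - η) ≤ L ^ (1 : ℝ) := Real.rpow_le_rpow_of_exponent_le hL1 (by linarith)
      _ = L := Real.rpow_one L
  have hz1 : 2 ≤ z / 8 := by omega
  have hR' := hR w (z / 8) Y hw1024 hz1 (by omega)
  -- first term
  have t1 : C * Y * Real.exp (-(Real.log Y / Real.log w)) * Real.log w ^ 11
      ≤ Y * (Real.log L / L) := by
    have hlY : L ≤ Real.log Y := Real.log_le_log hz0 (by exact_mod_cast hzY)
    have h5 : L ^ η ≤ Real.log Y / Real.log w := by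
      rw [le_div_iff₀ hlw0]
      calc L ^ η * Real.log w ≤ L ^ η * L ^ (1 - η) :=
            mul_le_mul_of_nonneg_left hlw (by positivity)
        _ = L := by rw [← Real.rpow_add hL0]; simp
        _ ≤ _ := hlY
    have h6 : Real.exp (-(Real.log Y / Real.log w)) ≤ Real.exp (-(L ^ η)) :=
      Real.exp_le_exp.mpr (by linarith)
    have h7 : Real.log w ^ 11 ≤ L ^ 11 := pow_le_pow_left₀ hlw0.le hlwL 11
    calc C * Y * Real.exp (-(Real.log Y / Real.log w)) * Real.log w ^ 11
        ≤ C * Y * Real.exp (-(L ^ η)) * L ^ 11 := by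
          apply mul_le_mul _ h7 (by positivity) (by positivity)
          exact mul_le_mul_of_nonneg_left h6 (by positivity)
      _ = Y * (C * L ^ 11 * Real.exp (-(L ^ η))) := by ring
      _ ≤ _ := mul_le_mul_of_nonneg_left h1 hY0.le
  -- second term
  have hz1' : (z : ℝ) / 16 ≤ ((z / 8 : ℕ) : ℝ) := by
    rw [div_le_iff₀ (by norm_num)]
    exact_mod_cast (by omega : z ≤ z / 8 * 16)
  have hlog16 : Real.log 16 = 4 * Real.log 2 := by
    rw [show (16 : ℝ) = 2 ^ (4 : ℕ) by norm_num, Real.log_pow]; norm_num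
  have hl2 := Real.log_two_lt_d9
  have hlz1 : L / 2 ≤ Real.log ((z / 8 : ℕ) : ℝ) := by
    have h5 : Real.log ((z : ℝ) / 16) ≤ Real.log ((z / 8 : ℕ) : ℝ) :=
      Real.log_le_log (by positivity) hz1'
    rw [Real.log_div hz0.ne' (by norm_num), hlog16] at h5
    linarith
  have t2 : 4 * Y / Real.log ((z / 8 : ℕ) : ℝ) * (1 + Real.log ((Y / (z / 8) : ℕ) : ℝ))
      ≤ Y * (48 * (Real.log L / L)) := by
    have hlogL0 : 0 < Real.log L := by linarith
    have h5 : 1 + Real.log ((Y / (z / 8) : ℕ) : ℝ) ≤ 6 * Real.log L := by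
      rcases Nat.eq_zero_or_pos (Y / (z / 8)) with h0 | h0
      · rw [h0]; simp; linarith
      · have h6 : ((Y / (z / 8) : ℕ) : ℝ) ≤ 16 * L ^ 4 := by
          have h7 : ((Y / (z / 8) : ℕ) : ℝ) ≤ Y / ((z / 8 : ℕ) : ℝ) := Nat.cast_div_le
          refine h7.trans ?_
          rw [div_le_iff₀ (by positivity)]
          calc (Y : ℝ) ≤ z * L ^ 4 := hY
            _ = 16 * L ^ 4 * (z / 16) := by ring
            _ ≤ 16 * L ^ 4 * ((z / 8 : ℕ) : ℝ) := mul_le_mul_of_nonneg_left hz1' (by positivity)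
        have h8 : Real.log ((Y / (z / 8) : ℕ) : ℝ) ≤ Real.log (16 * L ^ 4) :=
          Real.log_le_log (by exact_mod_cast h0) h6
        rw [Real.log_mul (by norm_num) (by positivity), Real.log_pow, hlog16] at h8
        push_cast at h8
        linarith
    have h9 : 4 * (Y : ℝ) / Real.log ((z / 8 : ℕ) : ℝ) ≤ 4 * Y / (L / 2) :=
      div_le_div_of_nonneg_left (by positivity) (by positivity) hlz1
    calc _ ≤ 4 * Y / (L / 2) * (6 * Real.log L) := by
          apply mul_le_mul h9 h5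
          · rcases Nat.eq_zero_or_pos (Y / (z / 8)) with h0 | h0
            · rw [h0]; simp
            · have : 0 ≤ Real.log ((Y / (z / 8) : ℕ) : ℝ) :=
                Real.log_nonneg (by exact_mod_cast h0)
              linarith
          · positivity
      _ = _ := by field_simp; ring
  calc _ ≤ _ := hR'
    _ ≤ Y * (Real.log L / L) + Y * (48 * (Real.log L / L)) := add_le_add t1 t2
    _ = 49 * (Y * (Real.log L / L)) := by ring
    _ ≤ 50 * (Y * (Real.log L / L)) := by
        have : 0 ≤ Y * (Real.log L / L) := by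
          have : 0 < Real.log L := by linarith
          positivity
        linarith
    _ = _ := by ring

/-- The product over the small primes. -/
theorem ev_VV : ∃ C : ℝ, 0 < C ∧ ∀ η : ℝ, 0 < η → η < 1 → ∀ᶠ z : ℕ in atTop,
    VV ⌊Real.log z⌋₊ ⌊Real.exp (Real.log z ^ (1 - η))⌋₊
      ≤ C * Real.log (Real.log z) ^ 2 / Real.log z ^ (1 - η) := by
  obtain ⟨C, hC, hV⟩ := exists_VV
  refine ⟨2 * C, by positivity, ?_⟩
  intro η hη hη1
  have hη1' : 0 < 1 - η := by linarith
  have e1 := tendsto_log_nat.eventually (eventually_ge_atTop (1024 : ℝ))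
  have e2 := tendsto_log_nat.eventually
    ((tendsto_rpow_atTop hη1').eventually (eventually_ge_atTop (7 : ℝ)))
  -- `L ≤ exp (L^(1-η))`
  have e3 : ∀ᶠ L : ℝ in atTop, Real.log L ≤ L ^ (1 - η) := by
    have := (isLittleO_log_rpow_atTop hη1').bound (show (0 : ℝ) < 1 by norm_num)
    filter_upwards [this, eventually_ge_atTop 1] with L hL h1
    rw [Real.norm_of_nonneg (Real.log_nonneg h1), Real.norm_of_nonneg (by positivity), one_mul] at hL
    exact hL
  have e3' := tendsto_log_nat.eventually e3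
  filter_upwards [e1, e2, e3'] with z h1 h2 h3
  set L := Real.log z with hL
  have hL0 : 0 < L := by linarith
  set w := ⌊Real.exp (L ^ (1 - η))⌋₊ with hw
  have hT : 1024 ≤ ⌊L⌋₊ := Nat.le_floor (by exact_mod_cast h1)
  have hTw : ⌊L⌋₊ ≤ w := by
    apply Nat.floor_le_floor
    calc L = Real.exp (Real.log L) := (Real.exp_log hL0).symm
      _ ≤ _ := Real.exp_le_exp.mpr h3
  have h4 := hV ⌊L⌋₊ w hT hTw
  have hT0 : (0 : ℝ) < (⌊L⌋₊ : ℝ) := by exact_mod_cast (by omega : 0 < ⌊L⌋₊)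
  have h5 : Real.log (⌊L⌋₊ : ℝ) ≤ Real.log L :=
    Real.log_le_log hT0 (Nat.floor_le hL0.le)
  have h5' : 0 ≤ Real.log (⌊L⌋₊ : ℝ) := Real.log_nonneg (by exact_mod_cast (by omega : 1 ≤ ⌊L⌋₊))
  have h6 : L ^ (1 - η) / 2 ≤ Real.log w := by
    have h7 : Real.exp (L ^ (1 - η)) / 2 ≤ w := by
      have h8 := Nat.lt_floor_add_one (Real.exp (L ^ (1 - η)))
      have h9 : (2 : ℝ) ≤ Real.exp (L ^ (1 - η)) := by
        have := Real.add_one_le_exp (L ^ (1 - η))
        linarith
      rw [← hw] at h8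
      linarith
    have h10 : Real.log (Real.exp (L ^ (1 - η)) / 2) ≤ Real.log w :=
      Real.log_le_log (by positivity) h7
    rw [Real.log_div (Real.exp_pos _).ne' (by norm_num), Real.log_exp] at h10
    have := Real.log_two_lt_d9
    linarith
  calc _ ≤ _ := h4
    _ ≤ C * Real.log L ^ 2 / (L ^ (1 - η) / 2) := by
        apply div_le_div₀ (by positivity) _ (by positivity) h6
        apply mul_le_mul_of_nonneg_left _ hC.le
        exact pow_le_pow_left₀ h5' h5 2
    _ = _ := by field_simp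

/-- Many primes in `(z/8, z]`. -/
theorem ev_primes : ∀ᶠ z : ℕ in atTop,
    (z : ℝ) / (5 * Real.log z) ≤ (PP (z / 8) z).card := by
  have e1 : Tendsto (fun z : ℕ => ((z / 8 : ℕ) : ℝ)) atTop atTop :=
    tendsto_natCast_atTop_atTop.comp (Nat.tendsto_div_const_atTop (by norm_num))
  have e2 := e1.eventually (Chebyshev.eventually_primeCounting_le (ε := 0.1) (by norm_num))
  have e3 := tendsto_log_nat.eventually (eventually_ge_atTop (40 : ℝ))
  filter_upwards [e2, e3, eventually_ge_atTop 1000] with z h2 h3 hz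
  set L := Real.log z with hL
  have hL0 : 0 < L := by linarith
  have hz0 : (0 : ℝ) < z := by exact_mod_cast (by omega : 0 < z)
  rw [Nat.floor_natCast] at h2
  have hcard : (PP 0 z).card = (PP 0 (z / 8)).card + (PP (z / 8) z).card := by
    rw [PP_union (Nat.zero_le _) (Nat.div_le_self z 8), card_union_of_disjoint PP_disjoint]
  have h4 := Chebyshev.pi_ge z
  rw [← PP_zero_card] at h2 h4
  have h5 : ((PP 0 z).card : ℝ) = (PP 0 (z / 8)).card + (PP (z / 8) z).card := by
    exact_mod_cast hcard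
  have hz1' : (z : ℝ) / 16 ≤ ((z / 8 : ℕ) : ℝ) := by
    rw [div_le_iff₀ (by norm_num)]
    exact_mod_cast (by omega : z ≤ z / 8 * 16)
  have hz1'' : ((z / 8 : ℕ) : ℝ) ≤ (z : ℝ) / 8 := by
    have := @Nat.cast_div_le ℝ _ _ _ z 8
    exact_mod_cast this
  have hlog16 : Real.log 16 = 4 * Real.log 2 := by
    rw [show (16 : ℝ) = 2 ^ (4 : ℕ) by norm_num, Real.log_pow]; norm_num
  have hl2 := Real.log_two_lt_d9
  have hl2' := Real.log_two_gt_d9
  have hlog4 : Real.log 4 = 2 * Real.log 2 := by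
    rw [show (4 : ℝ) = 2 ^ (2 : ℕ) by norm_num, Real.log_pow]; norm_num
  have hlz1 : 0.9 * L ≤ Real.log ((z / 8 : ℕ) : ℝ) := by
    have h5 : Real.log ((z : ℝ) / 16) ≤ Real.log ((z / 8 : ℕ) : ℝ) :=
      Real.log_le_log (by positivity) hz1'
    rw [Real.log_div hz0.ne' (by norm_num), hlog16] at h5
    linarith
  have h6 : (Real.log 4 + 0.1) * ((z / 8 : ℕ) : ℝ) / Real.log ((z / 8 : ℕ) : ℝ)
      ≤ (1.4863) * (z / 8) / (0.9 * L) := by
    apply div_le_div₀ (by positivity) _ (by positivity) hlz1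
    apply mul_le_mul (by linarith) hz1'' (by positivity) (by norm_num)
  have h7 : Real.log (z + 1) ≤ 0.05 * z := by
    have h8 := log_le_sqrt (x := (z : ℝ) + 1) (by linarith)
    have h9 : √((z : ℝ) + 1) ≤ 0.05 * z := by
      have hz' : (1000 : ℝ) ≤ z := by exact_mod_cast hz
      rw [Real.sqrt_le_left (by positivity)]
      nlinarith
    have h10 : 0 ≤ √((z : ℝ) + 1) := Real.sqrt_nonneg _
    linarith
  have h11 : 0.6 * z / L ≤ (z * Real.log 2 - Real.log (z + 1)) / L := by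
    apply div_le_div_of_nonneg_right _ hL0.le
    nlinarith
  have h12 : (1.4863) * ((z : ℝ) / 8) / (0.9 * L) ≤ 0.21 * z / L := by
    rw [div_le_div_iff₀ (by positivity) hL0]
    nlinarith [mul_pos hz0 hL0]
  have h13 : (z : ℝ) / (5 * L) = 0.2 * z / L := by field_simp; norm_num
  rw [h13]
  have h14 : 0.6 * z / L - 0.21 * z / L = 0.39 * z / L := by ring
  have h15 : 0.2 * z / L ≤ 0.39 * z / L := by
    apply div_le_div_of_nonneg_right _ hL0.le
    nlinarith
  linarith

end

end Pool.Agent.H10.GoldLoc
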