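import Pool.Agent.H10.GoldLoc.Greedy

/-!
The combinatorial part: residues for the small, medium and large primes.
-/

namespace Pool.Agent.H10.GoldLoc

open Finset

/-- The primes in `(a, b]`. -/
def PP (a b : ℕ) : Finset ℕ := (Ioc a b).filter Nat.Prime

lemma mem_PP {a b q : ℕ} : q ∈ PP a b ↔ a < q ∧ q ≤ b ∧ q.Prime := by
  unfold PP
  rw [mem_filter, mem_Ioc, and_assoc]

/-- Killing sets: for a prime `p` (left) and for a shift `x` (right). -/
def KK (q : ℕ) : ℕ ⊕ ℕ → Finset ℕ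
  | Sum.inl p => (range q).filter (fun r : ℕ => (q : ℤ) ∣ 2 * (r : ℤ) - p)
  | Sum.inr x => (range q).filter (fun r : ℕ => (q : ℤ) ∣ (r : ℤ) - x ∨ (q : ℤ) ∣ (r : ℤ) + x)

lemma KK_subset (q : ℕ) (s : ℕ ⊕ ℕ) : KK q s ⊆ range q := by
  cases s <;> exact filter_subset _ _

lemma exists_mod {q : ℕ} (hq : 0 < q) (a : ℤ) : ∃ r ∈ range q, (q : ℤ) ∣ r - a := by
  have hq' : (q : ℤ) ≠ 0 := by exact_mod_cast hq.ne'
  refine ⟨(a % q).toNat, ?_, ?_⟩
  · rw [mem_range]
    have h1 := Int.emod_nonneg a hq'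
    have h2 := Int.emod_lt_of_pos a (by exact_mod_cast hq : (0 : ℤ) < q)
    omega
  · have h1 := Int.emod_nonneg a hq'
    rw [Int.toNat_of_nonneg h1]
    have h3 : (q : ℤ) ∣ a - a % q := Int.dvd_self_sub_emod
    have : a % q - a = -(a - a % q) := by ring
    rw [this]
    exact (dvd_neg).mpr h3

lemma KK_inl_nonempty {q : ℕ} (hq : q.Prime) (h2 : 2 < q) (p : ℕ) : (KK q (Sum.inl p)).Nonempty := by
  have hodd : ¬ 2 ∣ q := by
    intro h
    rcases (Nat.dvd_prime hq).mp h with h | h <;> omega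
  -- an integer `a` with `2 a ≡ p`
  obtain ⟨a, ha⟩ : ∃ a : ℤ, (q : ℤ) ∣ 2 * a - p := by
    rcases Nat.even_or_odd p with ⟨k, hk⟩ | ⟨k, hk⟩
    · exact ⟨k, by subst hk; push_cast; ring_nf; simp⟩
    · obtain ⟨m, hm⟩ : Odd q := by
        rw [← Nat.not_even_iff_odd, even_iff_two_dvd]; exact hodd
      refine ⟨k + m + 1, ?_⟩
      have : (2 * ((k : ℤ) + m + 1) - p) = q := by
        subst hk; subst hm; push_cast; ring
      rw [this]
  obtain ⟨r, hr, hr'⟩ := exists_mod hq.pos a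
  refine ⟨r, ?_⟩
  show r ∈ (range q).filter (fun r : ℕ => (q : ℤ) ∣ 2 * (r : ℤ) - p)
  rw [mem_filter]
  refine ⟨hr, ?_⟩
  have : (2 * (r : ℤ) - p) = 2 * (r - a) + (2 * a - p) := by ring
  rw [this]
  exact dvd_add (Dvd.dvd.mul_left hr' 2) ha

lemma KK_inr_nonempty {q : ℕ} (hq : q.Prime) (x : ℕ) : (KK q (Sum.inr x)).Nonempty := by
  obtain ⟨r, hr, hr'⟩ := exists_mod hq.pos (x : ℤ)
  refine ⟨r, ?_⟩
  show r ∈ (range q).filter (fun r : ℕ => (q : ℤ) ∣ (r : ℤ) - x ∨ (q : ℤ) ∣ (r : ℤ) + x)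
  rw [mem_filter]
  exact ⟨hr, Or.inl hr'⟩

lemma KK_inr_card {q : ℕ} (hq : q.Prime) (h2 : 2 < q) {x : ℕ} (hx : ¬ q ∣ x) :
    2 ≤ (KK q (Sum.inr x)).card := by
  obtain ⟨r, hr, hr'⟩ := exists_mod hq.pos (x : ℤ)
  obtain ⟨s, hs, hs'⟩ := exists_mod hq.pos (-(x : ℤ))
  have hne : r ≠ s := by
    rintro rfl
    have h1 : (q : ℤ) ∣ 2 * x := by
      have : (2 * (x : ℤ)) = (r - -(x : ℤ)) - (r - x) := by ring
      rw [this]
      exact dvd_sub hs' hr'
    have h2' : q ∣ 2 * x := by exact_mod_cast h1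
    rcases hq.dvd_mul.mp h2' with h | h
    · have := Nat.le_of_dvd (by norm_num) h
      omega
    · exact hx h
  have hsub : ({r, s} : Finset ℕ) ⊆ KK q (Sum.inr x) := by
    intro t ht
    show t ∈ (range q).filter (fun r : ℕ => (q : ℤ) ∣ (r : ℤ) - x ∨ (q : ℤ) ∣ (r : ℤ) + x)
    rw [mem_filter]
    rcases mem_insert.mp ht with rfl | ht
    · exact ⟨hr, Or.inl hr'⟩
    · rw [mem_singleton] at ht
      subst ht
      exact ⟨hs, Or.inr (by simpa using hs')⟩
  have := card_le_card hsub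
  rwa [card_pair hne] at this

/-- The numbers in `[1, Y]` without prime factors in `Q`. -/
def RR (Q : Finset ℕ) (Y : ℕ) : Finset ℕ := (Icc 1 Y).filter (fun u => ∀ q ∈ Q, ¬ q ∣ u)

lemma mem_RR {Q : Finset ℕ} {Y u : ℕ} : u ∈ RR Q Y ↔ (1 ≤ u ∧ u ≤ Y) ∧ ∀ q ∈ Q, ¬ q ∣ u := by
  unfold RR
  rw [mem_filter, mem_Icc]

/-- The shifts in `[0, y]` surviving the residue `a` for the moduli in `Q`. -/
def BB (Q : Finset ℕ) (y a : ℕ) : Finset ℕ :=
  (range (y + 1)).filter (fun x => ∀ q ∈ Q, ¬ (q : ℤ) ∣ a - x ∧ ¬ (q : ℤ) ∣ a + x)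

/-- The primes up to `y` surviving the residue `a` for the moduli in `Q`. -/
def AA (Q : Finset ℕ) (y a : ℕ) : Finset ℕ :=
  (PP 0 y).filter (fun p => ∀ q ∈ Q, ¬ (q : ℤ) ∣ 2 * a - p)

lemma sum_card_BB (Q : Finset ℕ) (hQ : Q.Nonempty) (y : ℕ) :
    ∑ a ∈ Icc 1 y, (BB Q y a).card ≤ 2 * (RR Q (2 * y)).card ^ 2 := by
  rw [← card_sigma]
  have hinj : ((Icc 1 y).sigma (fun a => BB Q y a)).card
      ≤ ((RR Q (2 * y)) ×ˢ ((RR Q (2 * y)) ×ˢ (univ : Finset Bool))).card := by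
    apply card_le_card_of_injOn
      (fun t => (t.1 + t.2, (((t.1 : ℤ) - t.2).natAbs, decide (t.2 ≤ t.1))))
    · intro t ht
      rw [mem_coe, mem_sigma] at ht
      obtain ⟨h1, h2⟩ := ht
      rw [mem_Icc] at h1
      unfold BB at h2
      rw [mem_filter, mem_range] at h2
      rw [mem_coe, mem_product, mem_product]
      refine ⟨?_, ?_, mem_univ _⟩
      · rw [mem_RR]
        refine ⟨⟨by simp only; omega, by simp only; omega⟩, ?_⟩
        intro q hq hdvd
        apply (h2.2 q hq).2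
        exact_mod_cast hdvd
      · rw [mem_RR]
        obtain ⟨q₁, hq₁⟩ := hQ
        refine ⟨⟨?_, ?_⟩, ?_⟩
        · simp only
          have : ((t.1 : ℤ) - t.2) ≠ 0 := by
            intro h0
            apply (h2.2 q₁ hq₁).1
            rw [h0]
            exact dvd_zero _
          omega
        · simp only; omega
        · intro q hq hdvd
          apply (h2.2 q hq).1
          exact Int.natCast_dvd.mpr hdvd
    · intro t ht s hs hts
      simp only [Prod.mk.injEq, decide_eq_decide] at hts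
      obtain ⟨h1, h2, h3⟩ := hts
      have h4 : t.1 = s.1 ∧ t.2 = s.2 := by
        by_cases hc : t.2 ≤ t.1
        · have := h3.mp hc
          omega
        · have : ¬ s.2 ≤ s.1 := fun h => hc (h3.mpr h)
          omega
      obtain ⟨t1, t2⟩ := t
      obtain ⟨s1, s2⟩ := s
      simp only at h4
      obtain ⟨rfl, rfl⟩ := h4
      rfl
  refine hinj.trans ?_
  rw [card_product, card_product, card_univ, Fintype.card_bool]
  nlinarith

lemma sum_card_AA (Q : Finset ℕ) (hQ : Q.Nonempty) (y y' : ℕ) (hy : y' ≤ 2 * y) :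
    ∑ a ∈ Icc 1 y, (AA Q y' a).card ≤ 2 * (PP 0 y').card * (RR Q (2 * y)).card := by
  have h0 : ∑ a ∈ Icc 1 y, (AA Q y' a).card
      = ∑ p ∈ PP 0 y', ((Icc 1 y).filter (fun a : ℕ => ∀ q ∈ Q, ¬ (q : ℤ) ∣ 2 * a - p)).card := by
    unfold AA
    simp_rw [card_filter]
    rw [sum_comm]
  rw [h0]
  have h1 : ∀ p ∈ PP 0 y',
      ((Icc 1 y).filter (fun a : ℕ => ∀ q ∈ Q, ¬ (q : ℤ) ∣ 2 * a - p)).card
        ≤ 2 * (RR Q (2 * y)).card := by
    intro p hp
    rw [mem_PP] at hp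
    have : ((Icc 1 y).filter (fun a : ℕ => ∀ q ∈ Q, ¬ (q : ℤ) ∣ 2 * a - p)).card
        ≤ ((RR Q (2 * y)) ×ˢ (univ : Finset Bool)).card := by
      apply card_le_card_of_injOn (fun a : ℕ => ((2 * (a : ℤ) - p).natAbs, decide (p ≤ 2 * a)))
      · intro a ha
        rw [mem_coe, mem_filter, mem_Icc] at ha
        rw [mem_coe, mem_product]
        refine ⟨?_, mem_univ _⟩
        rw [mem_RR]
        obtain ⟨q₁, hq₁⟩ := hQ
        refine ⟨⟨?_, ?_⟩, ?_⟩
        · simp only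
          have : (2 * (a : ℤ) - p) ≠ 0 := by
            intro h0
            apply ha.2 q₁ hq₁
            rw [h0]
            exact dvd_zero _
          omega
        · simp only; omega
        · intro q hq hdvd
          apply ha.2 q hq
          exact Int.natCast_dvd.mpr hdvd
      · intro a ha b hb hab
        simp only [Prod.mk.injEq, decide_eq_decide] at hab
        by_cases hc : p ≤ 2 * a
        · have := hab.2.mp hc
          omega
        · have : ¬ p ≤ 2 * b := fun h => hc (hab.2.mpr h)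
          omega
    refine this.trans ?_
    rw [card_product, card_univ, Fintype.card_bool]
    omega
  refine (sum_le_sum h1).trans ?_
  rw [sum_const, smul_eq_mul]
  exact le_of_eq (by ring)

end Pool.Agent.H10.GoldLoc
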