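import Pool.Agent.H10.GoldLoc.Mertens

/-!
Counting: primes, smooth numbers, and numbers without medium prime factors.
-/

namespace Pool.Agent.H10.GoldLoc

open Finset

lemma PP_zero_card (y : ℕ) : (PP 0 y).card = Nat.primeCounting y := by
  have h : PP 0 y = y.primesLE := by
    ext q
    rw [mem_PP, Nat.mem_primesLE]
    constructor
    · rintro ⟨_, h2, h3⟩; exact ⟨h2, h3⟩
    · rintro ⟨h2, h3⟩; exact ⟨h3.pos, h2, h3⟩
  rw [h, Nat.primesLE_card_eq_primeCounting]

lemma log_le_sqrt {x : ℝ} (hx : 0 < x) : Real.log x ≤ (3 / 4) * √x := by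
  have hs : 0 < √x := Real.sqrt_pos.mpr hx
  have he := Real.exp_one_gt_d9
  have h1 : Real.log (√x / Real.exp 1) ≤ √x / Real.exp 1 - 1 :=
    Real.log_le_sub_one_of_pos (by positivity)
  rw [Real.log_div hs.ne' (Real.exp_pos 1).ne', Real.log_exp, Real.log_sqrt hx.le] at h1
  have h2 : √x / Real.exp 1 ≤ √x * (3 / 8) := by
    rw [div_le_iff₀ (Real.exp_pos 1)]
    nlinarith
  linarith

lemma pi_upper {y : ℕ} (hy : 2 ≤ y) : ((PP 0 y).card : ℝ) ≤ 4 * y / Real.log y := by
  have hy1 : (1 : ℝ) < y := by exact_mod_cast (by omega : 1 < y)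
  have hl : 0 < Real.log y := Real.log_pos hy1
  have h := Chebyshev.pi_le_log4_mul_div hy1
  rw [Nat.floor_natCast] at h
  rw [PP_zero_card]
  refine h.trans ?_
  rw [Real.log_sqrt (by linarith)]
  have h1 := log_le_sqrt (x := (y : ℝ)) (by linarith)
  have hs : 0 < √(y : ℝ) := Real.sqrt_pos.mpr (by linarith)
  have hss : √(y : ℝ) * √(y : ℝ) = y := Real.mul_self_sqrt (by linarith)
  have h4 : Real.log 4 = 2 * Real.log 2 := by
    rw [show (4 : ℝ) = 2 ^ (2 : ℕ) by norm_num, Real.log_pow]; norm_num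
  have hl2 := Real.log_two_lt_d9
  rw [le_div_iff₀ hl, add_mul]
  have e1 : Real.log 4 * (y : ℝ) / (Real.log y / 2) * Real.log y = 2 * Real.log 4 * y := by
    field_simp
  rw [e1]
  have h5 : √(y : ℝ) * Real.log y ≤ √(y : ℝ) * ((3 / 4) * √(y : ℝ)) :=
    mul_le_mul_of_nonneg_left h1 hs.le
  nlinarith

/-- Rankin's bound for the number of smooth numbers. -/
theorem exists_smooth : ∃ C : ℝ, 0 < C ∧ ∀ w Y : ℕ, 1024 ≤ w → 1 ≤ Y →
    (((Icc 1 Y).filter (fun u => ∀ p ∈ u.primeFactors, p ≤ w)).card : ℝ)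
      ≤ C * Y * Real.exp (-(Real.log Y / Real.log w)) * Real.log w ^ 11 := by
  obtain ⟨C, hC, hM⟩ := exists_mertens
  refine ⟨Real.exp (11 * C), Real.exp_pos _, ?_⟩
  intro w Y hw hY
  have hw0 : (0 : ℝ) < w := by exact_mod_cast (by omega : 0 < w)
  have hY0 : (0 : ℝ) < Y := by exact_mod_cast (by omega : 0 < Y)
  have hlw : 6 < Real.log w := by
    have h1 : Real.log (1024 : ℕ) ≤ Real.log w :=
      Real.log_le_log (by norm_num) (by exact_mod_cast hw)
    rw [show ((1024 : ℕ) : ℝ) = (2 : ℝ) ^ (10 : ℕ) by norm_num, Real.log_pow] at h1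
    have := Real.log_two_gt_d9
    push_cast at h1
    linarith
  set σ : ℝ := 1 - 1 / Real.log w with hσ
  have hσ0 : 0 < σ := by
    have : 1 / Real.log w < 1 := by
      rw [div_lt_one (by linarith)]; linarith
    linarith
  let f : ℕ →* ℝ :=
    { toFun := fun n => (n : ℝ) ^ (-σ)
      map_one' := by simp
      map_mul' := by
        intro a b
        push_cast
        rw [Real.mul_rpow (by positivity) (by positivity)] }
  have hfdef : ∀ n : ℕ, f n = (n : ℝ) ^ (-σ) := fun n => rfl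
  have hf : ∀ {p : ℕ}, p.Prime → ‖f p‖ < 1 := by
    intro p hp
    rw [hfdef]
    have h1 : (1 : ℝ) < p := by exact_mod_cast hp.one_lt
    rw [Real.norm_of_nonneg (by positivity)]
    exact Real.rpow_lt_one_of_one_lt_of_neg h1 (by linarith)
  obtain ⟨hs, hsum⟩ :=
    EulerProduct.summable_and_hasSum_smoothNumbers_prod_primesBelow_geometric (f := f) hf (w + 1)
  have hPP : (w + 1).primesBelow = PP 0 w := by
    ext q
    rw [Nat.mem_primesBelow, mem_PP]
    constructor
    · rintro ⟨h1, h2⟩; exact ⟨h2.pos, by omega, h2⟩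
    · rintro ⟨h1, h2, h3⟩; exact ⟨by omega, h3⟩
  rw [hPP] at hsum
  set S := (Icc 1 Y).filter (fun u => ∀ p ∈ u.primeFactors, p ≤ w) with hS
  have hSm : ∀ u ∈ S, u ∈ (w + 1).smoothNumbers := by
    intro u hu
    rw [hS, mem_filter, mem_Icc] at hu
    rw [Nat.mem_smoothNumbers']
    intro p hp hpu
    have := hu.2 p (Nat.mem_primeFactors.mpr ⟨hp, hpu, by omega⟩)
    omega
  -- the sum of `f` over `S`
  have h1 : ∑ u ∈ S, f u ≤ ∏ p ∈ PP 0 w, (1 - f p)⁻¹ := by
    have h3 := sum_le_hasSum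
      (S.attach.image (fun m => (⟨m.1, hSm m.1 m.2⟩ : (w + 1).smoothNumbers))) (fun m _ => by
        show 0 ≤ f m.1
        rw [hfdef]
        positivity) hsum
    rw [sum_image (by
      intro a _ b _ hab
      simp only [Subtype.mk.injEq] at hab
      exact Subtype.ext hab)] at h3
    refine le_trans (le_of_eq ?_) h3
    rw [← sum_attach]
  -- each factor
  have hfac : ∀ p ∈ PP 0 w, (1 - f p)⁻¹ ≤ Real.exp (11 * ((1 : ℝ) / p)) := by
    intro p hp
    rw [mem_PP] at hp
    have hp0 : (0 : ℝ) < p := by exact_mod_cast hp.2.2.pos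
    have hp1 : (1 : ℝ) < p := by exact_mod_cast hp.2.2.one_lt
    have hfp : f p = 1 / p * Real.exp (Real.log p / Real.log w) := by
      have e1 : (1 : ℝ) / p = Real.exp (-Real.log p) := by
        rw [Real.exp_neg, Real.exp_log hp0, one_div]
      rw [hfdef, hσ, Real.rpow_def_of_pos hp0, e1, ← Real.exp_add]
      congr 1
      field_simp
      ring
    have hlp : Real.log p ≤ Real.log w := Real.log_le_log hp0 (by exact_mod_cast hp.2.1)
    have hratio : Real.log p / Real.log w ≤ 1 := by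
      rw [div_le_one (by linarith)]; exact hlp
    have hexp : Real.exp (Real.log p / Real.log w) ≤ 2.7182818286 := by
      calc _ ≤ Real.exp 1 := Real.exp_le_exp.mpr hratio
        _ ≤ _ := Real.exp_one_lt_d9.le
    have hf0 : 0 < f p := by rw [hfdef]; positivity
    have hf1 : f p ≤ 2.7182818286 * (1 / p) := by
      rw [hfp, mul_comm]
      exact mul_le_mul_of_nonneg_right hexp (by positivity)
    have hf2 : f p ≤ 3 / 4 := by
      by_cases h4 : 4 ≤ p
      · have : (1 : ℝ) / p ≤ 1 / 4 := one_div_le_one_div_of_le (by norm_num) (by exact_mod_cast h4)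
        linarith
      · have hlog4 : Real.log p ≤ 1.4 := by
          have h5 : Real.log p ≤ Real.log 4 :=
            Real.log_le_log hp0 (by exact_mod_cast (by omega : p ≤ 4))
          have h6 : Real.log 4 = 2 * Real.log 2 := by
            rw [show (4 : ℝ) = 2 ^ (2 : ℕ) by norm_num, Real.log_pow]; norm_num
          have := Real.log_two_lt_d9
          linarith
        have h7 : Real.log p / Real.log w ≤ 1 / 4 := by
          rw [div_le_iff₀ (by linarith)]; linarith
        have h8 : Real.exp (Real.log p / Real.log w) ≤ 4 / 3 := by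
          calc _ ≤ Real.exp (1 / 4) := Real.exp_le_exp.mpr h7
            _ ≤ 1 / (1 - 1 / 4) := Real.exp_bound_div_one_sub_of_interval (by norm_num) (by norm_num)
            _ = 4 / 3 := by norm_num
        have h9 : (1 : ℝ) / p ≤ 1 / 2 := one_div_le_one_div_of_le (by norm_num) (by exact_mod_cast hp.2.2.two_le)
        rw [hfp]
        have h10 : (0 : ℝ) < 1 / p := by positivity
        nlinarith [Real.exp_pos (Real.log p / Real.log w)]
    have h11 : (1 - f p)⁻¹ ≤ Real.exp (4 * f p) := by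
      have h12 : 1 + 4 * f p ≤ Real.exp (4 * f p) := by
        have := Real.add_one_le_exp (4 * f p)
        linarith
      refine le_trans ?_ h12
      rw [inv_eq_one_div, div_le_iff₀ (by linarith)]
      nlinarith
    refine h11.trans (Real.exp_le_exp.mpr ?_)
    have : (0 : ℝ) < 1 / p := by positivity
    linarith
  have h2 : ∏ p ∈ PP 0 w, (1 - f p)⁻¹ ≤ Real.exp (11 * C) * Real.log w ^ 11 := by
    calc ∏ p ∈ PP 0 w, (1 - f p)⁻¹ ≤ ∏ p ∈ PP 0 w, Real.exp (11 * ((1 : ℝ) / p)) := by
          apply prod_le_prod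
          · intro p hp
            rw [mem_PP] at hp
            have := (abs_lt.mp (by have := hf hp.2.2; rwa [Real.norm_eq_abs] at this)).2
            have h3 : 0 < 1 - f p := by linarith
            positivity
          · exact hfac
      _ = Real.exp (11 * ∑ p ∈ PP 0 w, (1 : ℝ) / p) := by rw [← Real.exp_sum, mul_sum]
      _ ≤ Real.exp (11 * (Real.log (Real.log w) + C)) := by
          apply Real.exp_le_exp.mpr
          have := hM w hw
          linarith
      _ = _ := by
          rw [mul_add, Real.exp_add, mul_comm 11 (Real.log (Real.log w)), Real.exp_mul,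
            Real.exp_log (by linarith), mul_comm]
          congr 1
          norm_cast
  -- Rankin
  have h3 : (S.card : ℝ) ≤ (Y : ℝ) ^ σ * ∑ u ∈ S, f u := by
    rw [mul_sum]
    have : (S.card : ℝ) = ∑ _u ∈ S, (1 : ℝ) := by simp
    rw [this]
    apply sum_le_sum
    intro u hu
    rw [hS, mem_filter, mem_Icc] at hu
    have hu0 : (0 : ℝ) < u := by exact_mod_cast (by omega : 0 < u)
    rw [hfdef, Real.rpow_neg hu0.le, ← div_eq_mul_inv, ← Real.div_rpow hY0.le hu0.le]
    apply Real.one_le_rpow _ hσ0.le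
    rw [le_div_iff₀ hu0, one_mul]
    exact_mod_cast hu.1.2
  have h4 : (Y : ℝ) ^ σ = Y * Real.exp (-(Real.log Y / Real.log w)) := by
    rw [hσ, Real.rpow_def_of_pos hY0]
    nth_rewrite 2 [← Real.exp_log hY0]
    rw [← Real.exp_add]
    congr 1
    field_simp
    ring
  calc (S.card : ℝ) ≤ (Y : ℝ) ^ σ * ∑ u ∈ S, f u := h3
    _ ≤ (Y : ℝ) ^ σ * (Real.exp (11 * C) * Real.log w ^ 11) :=
        mul_le_mul_of_nonneg_left (h1.trans h2) (by positivity)
    _ = _ := by rw [h4]; ring

/-- Numbers without prime factors in `(w, z₁]`. -/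
lemma RR_subset (w z₁ Y : ℕ) (hz₁ : 0 < z₁) :
    RR (PP w z₁) Y ⊆ (Icc 1 Y).filter (fun u => ∀ p ∈ u.primeFactors, p ≤ w)
      ∪ (Icc 1 (Y / z₁)).biUnion (fun m => (PP 0 (Y / m)).image (fun p => m * p)) := by
  intro u hu
  rw [mem_RR] at hu
  rw [mem_union]
  by_cases h : ∀ p ∈ u.primeFactors, p ≤ w
  · left
    rw [mem_filter, mem_Icc]
    exact ⟨hu.1, h⟩
  · right
    push Not at h
    obtain ⟨p, hp', hpw⟩ := h
    obtain ⟨hp, hpu, -⟩ := Nat.mem_primeFactors.mp hp'
    have hz : z₁ < p := by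
      by_contra hcon
      exact hu.2 p (mem_PP.mpr ⟨hpw, by omega, hp⟩) hpu
    obtain ⟨m, hm⟩ := hpu
    have hm1 : 1 ≤ m := by
      rcases Nat.eq_zero_or_pos m with h0 | h0
      · subst h0; omega
      · exact h0
    rw [mem_biUnion]
    refine ⟨m, ?_, ?_⟩
    · rw [mem_Icc]
      refine ⟨hm1, ?_⟩
      rw [Nat.le_div_iff_mul_le hz₁]
      have : m * z₁ ≤ m * p := Nat.mul_le_mul_left m hz.le
      have h2 : m * p = u := by rw [hm]; ring
      omega
    · rw [mem_image]
      refine ⟨p, ?_, by rw [hm]; ring⟩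
      rw [mem_PP]
      refine ⟨hp.pos, ?_, hp⟩
      rw [Nat.le_div_iff_mul_le hm1, ← hm]
      exact hu.1.2

/-- Bound for the number of integers without prime factors in `(w, z₁]`. -/
theorem exists_RR : ∃ C : ℝ, 0 < C ∧ ∀ w z₁ Y : ℕ, 1024 ≤ w → 2 ≤ z₁ → 1 ≤ Y →
    ((RR (PP w z₁) Y).card : ℝ)
      ≤ C * Y * Real.exp (-(Real.log Y / Real.log w)) * Real.log w ^ 11
        + 4 * Y / Real.log z₁ * (1 + Real.log ((Y / z₁ : ℕ) : ℝ)) := by
  obtain ⟨C, hC, hS⟩ := exists_smooth
  refine ⟨C, hC, ?_⟩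
  intro w z₁ Y hw hz₁ hY
  have hlz : 0 < Real.log z₁ := Real.log_pos (by exact_mod_cast (by omega : 1 < z₁))
  have h1 := card_le_card (RR_subset w z₁ Y (by omega))
  have h2 := h1.trans (card_union_le _ _)
  have h3 : (((Icc 1 (Y / z₁)).biUnion (fun m => (PP 0 (Y / m)).image (fun p => m * p))).card : ℝ)
      ≤ 4 * Y / Real.log z₁ * (1 + Real.log ((Y / z₁ : ℕ) : ℝ)) := by
    have h4 : (((Icc 1 (Y / z₁)).biUnion (fun m => (PP 0 (Y / m)).image (fun p => m * p))).card : ℝ)
        ≤ ∑ m ∈ Icc 1 (Y / z₁), (((PP 0 (Y / m)).image (fun p => m * p)).card : ℝ) := by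
      exact_mod_cast card_biUnion_le
    have h5 : ∀ m ∈ Icc 1 (Y / z₁), (((PP 0 (Y / m)).image (fun p => m * p)).card : ℝ)
        ≤ 4 * Y / Real.log z₁ * ((m : ℝ))⁻¹ := by
      intro m hm
      rw [mem_Icc] at hm
      have hm0 : (0 : ℝ) < m := by exact_mod_cast (by omega : 0 < m)
      have hmz : z₁ ≤ Y / m := by
        rw [Nat.le_div_iff_mul_le (by omega)]
        have := (Nat.le_div_iff_mul_le (by omega : 0 < z₁)).mp hm.2
        nlinarith
      have h6 : (((PP 0 (Y / m)).image (fun p => m * p)).card : ℝ) ≤ ((PP 0 (Y / m)).card : ℝ) := by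
        exact_mod_cast card_image_le
      have h7 := pi_upper (y := Y / m) (by omega)
      have h8 : Real.log z₁ ≤ Real.log ((Y / m : ℕ) : ℝ) :=
        Real.log_le_log (by exact_mod_cast (by omega : 0 < z₁)) (by exact_mod_cast hmz)
      have h9 : ((Y / m : ℕ) : ℝ) ≤ Y / m := Nat.cast_div_le
      calc _ ≤ _ := h6
        _ ≤ _ := h7
        _ ≤ 4 * (Y / m) / Real.log z₁ := by
            apply div_le_div₀ (by positivity) (by linarith) hlz h8
        _ = _ := by field_simp
    refine h4.trans ((sum_le_sum h5).trans ?_)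
    rw [← mul_sum]
    apply mul_le_mul_of_nonneg_left _ (by positivity)
    have h10 := harmonic_le_one_add_log (Y / z₁)
    rw [harmonic_eq_sum_Icc] at h10
    push_cast at h10
    exact h10
  have h11 := hS w Y hw hY
  have h12 : ((RR (PP w z₁) Y).card : ℝ)
      ≤ (((Icc 1 Y).filter (fun u => ∀ p ∈ u.primeFactors, p ≤ w)).card : ℝ)
        + (((Icc 1 (Y / z₁)).biUnion (fun m => (PP 0 (Y / m)).image (fun p => m * p))).card : ℝ) := by
    exact_mod_cast h2
  linarith

end Pool.Agent.H10.GoldLoc
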