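import Mathlib

/-!
Averaging over residues, and assignment of one private modulus to each surviving element.
-/

namespace Pool.Agent.H10.GoldLoc

open Finset

/-- Choose one residue for each modulus so that few elements of `S` avoid all their killing sets. -/
theorem exists_residues {ι : Type*} [DecidableEq ι] (Q : Finset ℕ) (hQ : ∀ q ∈ Q, 0 < q)
    (K : ℕ → ι → Finset ℕ) (S : Finset ι) (hK : ∀ q ∈ Q, ∀ x ∈ S, K q x ⊆ range q) :
    ∃ r : ℕ → ℕ, (∀ q ∈ Q, r q < q) ∧
      ((S.filter (fun x => ∀ q ∈ Q, r q ∉ K q x)).card : ℝ)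
        ≤ ∑ x ∈ S, ∏ q ∈ Q, (1 - ((K q x).card : ℝ) / q) := by
  induction Q using Finset.induction_on generalizing S with
  | empty =>
    refine ⟨fun _ => 0, by simp, ?_⟩
    simp
  | insert q₀ Q hq₀ ih =>
    have hq0 : 0 < q₀ := hQ q₀ (mem_insert_self _ _)
    have hq0' : (0 : ℝ) < q₀ := by exact_mod_cast hq0
    -- the average over `r < q₀`
    have havg : ∑ r ∈ range q₀, ∑ x ∈ S.filter (fun x => r ∉ K q₀ x),
          ∏ q ∈ Q, (1 - ((K q x).card : ℝ) / q)
        = q₀ * ∑ x ∈ S, ∏ q ∈ insert q₀ Q, (1 - ((K q x).card : ℝ) / q) := by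
      have h1 : ∀ r ∈ range q₀, ∑ x ∈ S.filter (fun x => r ∉ K q₀ x),
          ∏ q ∈ Q, (1 - ((K q x).card : ℝ) / q)
          = ∑ x ∈ S, if r ∉ K q₀ x then ∏ q ∈ Q, (1 - ((K q x).card : ℝ) / q) else 0 := by
        intro r _
        rw [sum_filter]
      rw [sum_congr rfl h1, sum_comm, mul_sum]
      apply sum_congr rfl
      intro x hx
      rw [← sum_filter, sum_const, prod_insert hq₀]
      have h2 : ((range q₀).filter (fun r => r ∉ K q₀ x)).card = q₀ - (K q₀ x).card := by
        have : (range q₀).filter (fun r => r ∉ K q₀ x) = range q₀ \ K q₀ x := by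
          ext r
          simp [mem_sdiff]
        rw [this, card_sdiff_of_subset (hK q₀ (mem_insert_self _ _) x hx), card_range]
      have h3 : (K q₀ x).card ≤ q₀ := by
        have := card_le_card (hK q₀ (mem_insert_self _ _) x hx)
        rwa [card_range] at this
      rw [h2, nsmul_eq_mul, Nat.cast_sub h3]
      field_simp
    obtain ⟨r₀, hr₀, hr₀'⟩ : ∃ r₀ ∈ range q₀, ∑ x ∈ S.filter (fun x => r₀ ∉ K q₀ x),
          ∏ q ∈ Q, (1 - ((K q x).card : ℝ) / q)
        ≤ ∑ x ∈ S, ∏ q ∈ insert q₀ Q, (1 - ((K q x).card : ℝ) / q) := by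
      by_contra hcon
      push Not at hcon
      have hlt := sum_lt_sum_of_nonempty (s := range q₀) ⟨0, mem_range.mpr hq0⟩ hcon
      rw [havg, sum_const, card_range, nsmul_eq_mul] at hlt
      exact lt_irrefl _ hlt
    obtain ⟨r, hr, hcard⟩ := ih (fun q hq => hQ q (mem_insert_of_mem hq))
      (S.filter (fun x => r₀ ∉ K q₀ x))
      (fun q hq x hx => hK q (mem_insert_of_mem hq) x (mem_filter.mp hx).1)
    refine ⟨Function.update r q₀ r₀, ?_, ?_⟩
    · intro q hq
      rcases mem_insert.mp hq with rfl | hq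
      · simpa using mem_range.mp hr₀
      · have : q ≠ q₀ := fun h => hq₀ (h ▸ hq)
        rw [Function.update_of_ne this]
        exact hr q hq
    · refine le_trans ?_ (hcard.trans hr₀')
      have : S.filter (fun x => ∀ q ∈ insert q₀ Q, Function.update r q₀ r₀ q ∉ K q x)
          ⊆ (S.filter (fun x => r₀ ∉ K q₀ x)).filter (fun x => ∀ q ∈ Q, r q ∉ K q x) := by
        intro x hx
        rw [mem_filter] at hx
        rw [mem_filter, mem_filter]
        refine ⟨⟨hx.1, ?_⟩, ?_⟩
        · have := hx.2 q₀ (mem_insert_self _ _)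
          simpa using this
        · intro q hq
          have h := hx.2 q (mem_insert_of_mem hq)
          have hne : q ≠ q₀ := fun h => hq₀ (h ▸ hq)
          rwa [Function.update_of_ne hne] at h
      exact_mod_cast card_le_card this

/-- Assign to the elements of a small set distinct moduli, each killing its element. -/
theorem exists_private {ι : Type*} [DecidableEq ι] (L : Finset ℕ) (S : Finset ι)
    (hcard : S.card ≤ L.card) (K : ℕ → ι → Finset ℕ)
    (hne : ∀ q ∈ L, ∀ x ∈ S, (K q x).Nonempty) :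
    ∃ r : ℕ → ℕ, ∀ x ∈ S, ∃ q ∈ L, r q ∈ K q x := by
  obtain ⟨L', hL', hcard'⟩ := exists_subset_card_eq hcard
  have e := Finset.equivOfCardEq hcard'
  classical
  refine ⟨fun q => if h : ∃ hq : q ∈ L', (K q (e ⟨q, hq⟩).1).Nonempty then
    (h.choose_spec).choose else 0, ?_⟩
  intro x hx
  refine ⟨(e.symm ⟨x, hx⟩).1, hL' (e.symm ⟨x, hx⟩).2, ?_⟩
  have hmem := (e.symm ⟨x, hx⟩).2
  have hx' : (e ⟨(e.symm ⟨x, hx⟩).1, hmem⟩).1 = x := by simp
  have hex : ∃ hq : (e.symm ⟨x, hx⟩).1 ∈ L', (K (e.symm ⟨x, hx⟩).1 (e ⟨_, hq⟩).1).Nonempty := by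
    refine ⟨hmem, ?_⟩
    rw [hx']
    exact hne _ (hL' hmem) x hx
  simp only
  rw [dif_pos hex]
  have := hex.choose_spec.choose_spec
  convert this using 2
  rw [hx']

end Pool.Agent.H10.GoldLoc
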