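import Pool.Agent.H10.GoldLoc.Comb

/-!
Existence of residues killing all small primes and all small shifts.
-/

namespace Pool.Agent.H10.GoldLoc

open Finset

/-- The product of `1 - 1/q` over the primes in `(T, w]`. -/
noncomputable def VV (T w : ℕ) : ℝ := ∏ q ∈ PP T w, (1 - (1 : ℝ) / q)

lemma VV_nonneg (T w : ℕ) : 0 ≤ VV T w := by
  apply prod_nonneg
  intro q hq
  rw [mem_PP] at hq
  have : (1 : ℝ) ≤ q := by exact_mod_cast hq.2.2.one_lt.le
  have h2 : (1 : ℝ) / q ≤ 1 := by rw [div_le_one (by linarith)]; exact this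
  linarith

lemma card_dvd_lt {T w x k : ℕ} (hT : 1 ≤ T) (hx : 1 ≤ x) (hk : x < T ^ k) :
    ((PP T w).filter (fun q => q ∣ x)).card < k := by
  by_contra hcon
  push Not at hcon
  have h1 : ∏ q ∈ (PP T w).filter (fun q => q ∣ x), q ∣ x := by
    apply Finset.prod_primes_dvd
    · intro q hq
      rw [mem_filter, mem_PP] at hq
      exact hq.1.2.2.prime
    · intro q hq
      exact (mem_filter.mp hq).2
  have h2 : T ^ k ≤ ∏ q ∈ (PP T w).filter (fun q => q ∣ x), q := by
    calc T ^ k ≤ T ^ ((PP T w).filter (fun q => q ∣ x)).card := Nat.pow_le_pow_right hT hcon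
      _ = ∏ q ∈ (PP T w).filter (fun q => q ∣ x), T := by rw [prod_const]
      _ ≤ _ := by
        apply prod_le_prod'
        intro q hq
        rw [mem_filter, mem_PP] at hq
        exact hq.1.1.le
  have h3 := Nat.le_of_dvd (by omega) h1
  omega

lemma prod_inl_le {T w : ℕ} (hT : 2 ≤ T) (p : ℕ) :
    ∏ q ∈ PP T w, (1 - ((KK q (Sum.inl p)).card : ℝ) / q) ≤ VV T w := by
  apply prod_le_prod
  · intro q hq
    rw [mem_PP] at hq
    have h1 : (KK q (Sum.inl p)).card ≤ q := by
      have := card_le_card (KK_subset q (Sum.inl p))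
      rwa [card_range] at this
    have hq0 : (0 : ℝ) < q := by exact_mod_cast hq.2.2.pos
    have : ((KK q (Sum.inl p)).card : ℝ) / q ≤ 1 := by
      rw [div_le_one hq0]; exact_mod_cast h1
    linarith
  · intro q hq
    rw [mem_PP] at hq
    have h1 : 1 ≤ (KK q (Sum.inl p)).card := card_pos.mpr (KK_inl_nonempty hq.2.2 (by omega) p)
    have hq0 : (0 : ℝ) < q := by exact_mod_cast hq.2.2.pos
    have : (1 : ℝ) / q ≤ ((KK q (Sum.inl p)).card : ℝ) / q := by
      apply div_le_div_of_nonneg_right _ hq0.le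
      exact_mod_cast h1
    linarith

lemma prod_inr_le_one {T w : ℕ} (x : ℕ) :
    ∏ q ∈ PP T w, (1 - ((KK q (Sum.inr x)).card : ℝ) / q) ≤ 1 := by
  apply prod_le_one
  · intro q hq
    rw [mem_PP] at hq
    have h1 : (KK q (Sum.inr x)).card ≤ q := by
      have := card_le_card (KK_subset q (Sum.inr x))
      rwa [card_range] at this
    have hq0 : (0 : ℝ) < q := by exact_mod_cast hq.2.2.pos
    have : ((KK q (Sum.inr x)).card : ℝ) / q ≤ 1 := by
      rw [div_le_one hq0]; exact_mod_cast h1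
    linarith
  · intro q hq
    have : 0 ≤ ((KK q (Sum.inr x)).card : ℝ) / q := by positivity
    linarith

lemma prod_inr_le {T w x k : ℕ} (hT : 2 ≤ T) (hx : 1 ≤ x) (hk : x < T ^ k) :
    ∏ q ∈ PP T w, (1 - ((KK q (Sum.inr x)).card : ℝ) / q)
      ≤ Real.exp (4 * k / T) * VV T w ^ 2 := by
  have hT0 : (0 : ℝ) < T := by exact_mod_cast (by omega : 0 < T)
  have hstep : ∏ q ∈ PP T w, (1 - ((KK q (Sum.inr x)).card : ℝ) / q)
      ≤ ∏ q ∈ PP T w, ((1 - (1 : ℝ) / q) ^ 2 * (if q ∣ x then Real.exp (4 / T) else 1)) := by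
    apply prod_le_prod
    · intro q hq
      rw [mem_PP] at hq
      have h1 : (KK q (Sum.inr x)).card ≤ q := by
        have := card_le_card (KK_subset q (Sum.inr x))
        rwa [card_range] at this
      have hq0 : (0 : ℝ) < q := by exact_mod_cast hq.2.2.pos
      have : ((KK q (Sum.inr x)).card : ℝ) / q ≤ 1 := by
        rw [div_le_one hq0]; exact_mod_cast h1
      linarith
    · intro q hq
      rw [mem_PP] at hq
      have hq0 : (0 : ℝ) < q := by exact_mod_cast hq.2.2.pos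
      have hq3 : (3 : ℝ) ≤ q := by exact_mod_cast (by omega : 3 ≤ q)
      split_ifs with hd
      · have h0 : 0 ≤ ((KK q (Sum.inr x)).card : ℝ) / q := by positivity
        have h1 : (1 : ℝ) / q ≤ 1 / T := by
          apply one_div_le_one_div_of_le hT0
          exact_mod_cast hq.1.le
        have h3 : (1 : ℝ) / q ≤ 1 / 3 := one_div_le_one_div_of_le (by norm_num) hq3
        have h4 : 0 < (1 : ℝ) / q := by positivity
        -- `exp (-(2/q)) ≤ 1 - 1/q`
        have h5 : Real.exp (-(2 * (1 / (q : ℝ)))) ≤ 1 - 1 / q := by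
          set t : ℝ := 1 / (q : ℝ) with ht
          have h6 : 1 + 2 * t ≤ Real.exp (2 * t) := by
            have := Real.add_one_le_exp (2 * t)
            linarith
          rw [Real.exp_neg]
          rw [inv_le_comm₀ (Real.exp_pos _) (by linarith)]
          refine le_trans ?_ h6
          rw [inv_le_comm₀ (by linarith) (by linarith)]
          rw [inv_eq_one_div, div_le_iff₀ (by linarith)]
          nlinarith
        have h7 : Real.exp (-(4 / T)) ≤ (1 - (1 : ℝ) / q) ^ 2 := by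
          calc Real.exp (-(4 / T)) ≤ Real.exp (-(2 * (1 / (q : ℝ))) + -(2 * (1 / (q : ℝ)))) := by
                apply Real.exp_le_exp.mpr
                have : (4 : ℝ) / T = 4 * (1 / T) := by ring
                rw [this]; linarith
            _ = Real.exp (-(2 * (1 / (q : ℝ)))) * Real.exp (-(2 * (1 / (q : ℝ)))) := Real.exp_add _ _
            _ ≤ (1 - (1 : ℝ) / q) * (1 - (1 : ℝ) / q) := by
                apply mul_le_mul h5 h5 (Real.exp_pos _).le (by linarith)
            _ = _ := by ring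
        have h8 : Real.exp (-(4 / T)) * Real.exp (4 / T) = 1 := by
          rw [← Real.exp_add]; simp
        have h9 : 1 ≤ (1 - (1 : ℝ) / q) ^ 2 * Real.exp (4 / T) := by
          calc (1 : ℝ) = Real.exp (-(4 / T)) * Real.exp (4 / T) := h8.symm
            _ ≤ _ := mul_le_mul_of_nonneg_right h7 (Real.exp_pos _).le
        linarith
      · have h1 := KK_inr_card hq.2.2 (by omega) hd
        have h2 : (2 : ℝ) / q ≤ ((KK q (Sum.inr x)).card : ℝ) / q := by
          apply div_le_div_of_nonneg_right _ hq0.le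
          exact_mod_cast h1
        have h3 : (1 - (1 : ℝ) / q) ^ 2 = 1 - 2 / q + (1 / q) ^ 2 := by ring
        rw [mul_one, h3]
        have : 0 ≤ ((1 : ℝ) / q) ^ 2 := by positivity
        linarith
  refine hstep.trans ?_
  rw [prod_mul_distrib, prod_pow, mul_comm]
  apply mul_le_mul_of_nonneg_right _ (by positivity)
  rw [prod_ite, prod_const, prod_const_one, mul_one]
  have hc := card_dvd_lt (w := w) (by omega : 1 ≤ T) hx hk
  rw [← Real.exp_nat_mul]
  apply Real.exp_le_exp.mpr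
  have h1 : (((PP T w).filter (fun q => q ∣ x)).card : ℝ) ≤ k := by exact_mod_cast hc.le
  calc (((PP T w).filter (fun q => q ∣ x)).card : ℝ) * (4 / T) ≤ k * (4 / T) :=
        mul_le_mul_of_nonneg_right h1 (by positivity)
    _ = 4 * k / T := by ring

lemma sum_left_le {T w z₁ yA a : ℕ} (hT : 2 ≤ T) :
    ∑ p ∈ AA (PP w z₁) yA a, ∏ q ∈ PP T w, (1 - ((KK q (Sum.inl p)).card : ℝ) / q)
      ≤ VV T w * (AA (PP w z₁) yA a).card := by
  calc _ ≤ ∑ _p ∈ AA (PP w z₁) yA a, VV T w := sum_le_sum (fun p _ => prod_inl_le hT p)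
    _ = _ := by rw [sum_const, nsmul_eq_mul, mul_comm]

lemma sum_right_le {T w z₁ yB a k : ℕ} (hT : 2 ≤ T) (hk : yB < T ^ k) :
    ∑ x ∈ BB (PP w z₁) yB a, ∏ q ∈ PP T w, (1 - ((KK q (Sum.inr x)).card : ℝ) / q)
      ≤ 1 + Real.exp (4 * k / T) * VV T w ^ 2 * (BB (PP w z₁) yB a).card := by
  have h1 : ∀ x ∈ BB (PP w z₁) yB a, ∏ q ∈ PP T w, (1 - ((KK q (Sum.inr x)).card : ℝ) / q)
      ≤ (if x = 0 then 1 else 0) + Real.exp (4 * k / T) * VV T w ^ 2 := by
    intro x hx
    unfold BB at hx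
    rw [mem_filter, mem_range] at hx
    have hpos : 0 ≤ Real.exp (4 * k / T) * VV T w ^ 2 := by positivity
    split_ifs with h0
    · have := prod_inr_le_one (T := T) (w := w) x
      linarith
    · have := prod_inr_le (w := w) hT (by omega : 1 ≤ x) (by omega : x < T ^ k)
      linarith
  refine (sum_le_sum h1).trans ?_
  rw [sum_add_distrib, sum_const, nsmul_eq_mul, sum_ite_eq']
  have : (if (0 : ℕ) ∈ BB (PP w z₁) yB a then (1 : ℝ) else 0) ≤ 1 := by
    split_ifs <;> norm_num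
  linarith

/-- Residues for the primes in `(T, z]` killing all the primes up to `yA` and all the shifts up
to `yB`. -/
theorem exists_kill {T w z₁ z yA yB k : ℕ} (hT : 2 ≤ T) (hTw : T ≤ w) (hwz : w ≤ z₁) (hz : z₁ ≤ z)
    (hne : (PP w z₁).Nonempty) (hy1 : 1 ≤ yB) (hy : yA ≤ 2 * yB) (hk : yB < T ^ k)
    (hmain : 1 + (Real.exp (4 * k / T) * VV T w ^ 2 * (2 * (RR (PP w z₁) (2 * yB)).card ^ 2)
        + VV T w * (2 * (PP 0 yA).card * (RR (PP w z₁) (2 * yB)).card)) / yB
      ≤ (PP z₁ z).card) :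
    ∃ r : ℕ → ℕ, (∀ p ∈ PP 0 yA, ∃ q ∈ PP T z, (q : ℤ) ∣ 2 * r q - p) ∧
      (∀ x ≤ yB, ∃ q ∈ PP T z, (q : ℤ) ∣ r q - x ∨ (q : ℤ) ∣ r q + x) := by
  have hyB : (0 : ℝ) < yB := by exact_mod_cast hy1
  -- choose the shift for the medium primes
  obtain ⟨a, ha, haE⟩ : ∃ a ∈ Icc 1 yB,
      Real.exp (4 * k / T) * VV T w ^ 2 * (BB (PP w z₁) yB a).card
        + VV T w * (AA (PP w z₁) yA a).card
      ≤ (Real.exp (4 * k / T) * VV T w ^ 2 * (2 * (RR (PP w z₁) (2 * yB)).card ^ 2)
        + VV T w * (2 * (PP 0 yA).card * (RR (PP w z₁) (2 * yB)).card)) / yB := by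
    by_contra hcon
    push Not at hcon
    have hlt := sum_lt_sum_of_nonempty (s := Icc 1 yB) ⟨1, mem_Icc.mpr ⟨le_rfl, hy1⟩⟩ hcon
    rw [sum_const, Nat.card_Icc, Nat.add_sub_cancel, nsmul_eq_mul, mul_div_cancel₀ _ hyB.ne',
      sum_add_distrib, ← mul_sum, ← mul_sum] at hlt
    have h1 : ∑ a ∈ Icc 1 yB, ((BB (PP w z₁) yB a).card : ℝ)
        ≤ 2 * ((RR (PP w z₁) (2 * yB)).card : ℝ) ^ 2 := by
      exact_mod_cast sum_card_BB (PP w z₁) hne yB
    have h2 : ∑ a ∈ Icc 1 yB, ((AA (PP w z₁) yA a).card : ℝ)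
        ≤ 2 * (PP 0 yA).card * (RR (PP w z₁) (2 * yB)).card := by
      exact_mod_cast sum_card_AA (PP w z₁) hne yB yA hy
    have h3 : 0 ≤ Real.exp (4 * k / T) * VV T w ^ 2 := by positivity
    have h4 := VV_nonneg T w
    have h5 := mul_le_mul_of_nonneg_left h1 h3
    have h6 := mul_le_mul_of_nonneg_left h2 h4
    linarith
  -- the set of survivors of the medium stage
  set S : Finset (ℕ ⊕ ℕ) := (AA (PP w z₁) yA a).disjSum (BB (PP w z₁) yB a) with hS
  obtain ⟨r₁, -, hr₁⟩ := exists_residues (PP T w) (fun q hq => (mem_PP.mp hq).2.2.pos) KK S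
    (fun q _ x _ => KK_subset q x)
  have hsum : ∑ x ∈ S, ∏ q ∈ PP T w, (1 - ((KK q x).card : ℝ) / q) ≤ (PP z₁ z).card := by
    rw [hS, sum_disjSum]
    have h1 := sum_left_le (T := T) (w := w) (z₁ := z₁) (yA := yA) (a := a) hT
    have h2 := sum_right_le (T := T) (w := w) (z₁ := z₁) (yB := yB) (a := a) (k := k) hT hk
    linarith
  have hcard : (S.filter (fun x => ∀ q ∈ PP T w, r₁ q ∉ KK q x)).card ≤ (PP z₁ z).card := by
    exact_mod_cast hr₁.trans hsum
  obtain ⟨r₂, hr₂⟩ := exists_private (PP z₁ z) _ hcard KK (by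
    intro q hq x _
    rw [mem_PP] at hq
    rcases x with p | x
    · exact KK_inl_nonempty hq.2.2 (by omega) p
    · exact KK_inr_nonempty hq.2.2 x)
  -- the final residues
  let r : ℕ → ℕ := fun q => if q ≤ w then r₁ q else if q ≤ z₁ then a else r₂ q
  have hfin : ∀ s ∈ S, ∃ q ∈ PP T z, r q ∈ KK q s := by
    intro s hs
    by_cases h : ∀ q ∈ PP T w, r₁ q ∉ KK q s
    · obtain ⟨q, hq, hq'⟩ := hr₂ s (mem_filter.mpr ⟨hs, h⟩)
      rw [mem_PP] at hq
      refine ⟨q, mem_PP.mpr ⟨by omega, hq.2.1, hq.2.2⟩, ?_⟩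
      have : r q = r₂ q := by
        simp only [r]
        rw [if_neg (by omega), if_neg (by omega)]
      rw [this]; exact hq'
    · push Not at h
      obtain ⟨q, hq, hq'⟩ := h
      rw [mem_PP] at hq
      refine ⟨q, mem_PP.mpr ⟨hq.1, by omega, hq.2.2⟩, ?_⟩
      have : r q = r₁ q := by
        simp only [r]
        rw [if_pos hq.2.1]
      rw [this]; exact hq'
  have hmed : ∀ q ∈ PP w z₁, r q = a := by
    intro q hq
    rw [mem_PP] at hq
    simp only [r]
    rw [if_neg (by omega), if_pos hq.2.1]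
  refine ⟨r, ?_, ?_⟩
  · intro p hp
    by_cases h : p ∈ AA (PP w z₁) yA a
    · obtain ⟨q, hq, hq'⟩ := hfin (Sum.inl p) (by rw [hS, inl_mem_disjSum]; exact h)
      refine ⟨q, hq, ?_⟩
      exact (mem_filter.mp hq').2
    · unfold AA at h
      rw [mem_filter] at h
      push Not at h
      obtain ⟨q, hq, hq'⟩ := h hp
      refine ⟨q, ?_, ?_⟩
      · rw [mem_PP] at hq ⊢
        exact ⟨by omega, by omega, hq.2.2⟩
      · rw [hmed q hq]; exact hq'
  · intro x hx
    by_cases h : x ∈ BB (PP w z₁) yB a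
    · obtain ⟨q, hq, hq'⟩ := hfin (Sum.inr x) (by rw [hS, inr_mem_disjSum]; exact h)
      refine ⟨q, hq, ?_⟩
      exact (mem_filter.mp hq').2
    · unfold BB at h
      rw [mem_filter] at h
      push Not at h
      obtain ⟨q, hq, hq'⟩ := h (mem_range.mpr (by omega))
      refine ⟨q, ?_, ?_⟩
      · rw [mem_PP] at hq ⊢
        exact ⟨by omega, by omega, hq.2.2⟩
      · rw [hmed q hq]
        by_cases hd : (q : ℤ) ∣ a - x
        · exact Or.inl hd
        · exact Or.inr (hq' hd)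

end Pool.Agent.H10.GoldLoc
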