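import Pool.Agent.H10.GoldLoc.Asym

/-!
Residues modulo all odd primes up to `z` killing all primes up to `z (log z)^(2-ε)` and all shifts
up to `z (log z)^(3-ε)`.
-/

namespace Pool.Agent.H10.GoldLoc

open Finset Filter Topology

theorem ev_kill {ε : ℝ} (hε : 0 < ε) (hε1 : ε ≤ 1) : ∀ᶠ z : ℕ in atTop, ∃ r : ℕ → ℕ,
    (∀ p ∈ PP 0 ⌊(z : ℝ) * Real.log z ^ (2 - ε)⌋₊, ∃ q ∈ PP 2 z, (q : ℤ) ∣ 2 * r q - p) ∧
    (∀ x ≤ ⌊(z : ℝ) * Real.log z ^ (3 - ε)⌋₊, ∃ q ∈ PP 2 z,
      (q : ℤ) ∣ r q - x ∨ (q : ℤ) ∣ r q + x) := by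
  obtain ⟨C, hC, hV⟩ := ev_VV
  have hη0 : 0 < ε / 4 := by linarith
  have hη1 : ε / 4 < 1 := by linarith
  have hη1' : 0 < 1 - ε / 4 := by linarith
  have e1 := hV (ε / 4) hη0 hη1
  have e2 := ev_RR hη0 hη1
  have e3 := ev_primes
  have e4 := tendsto_log_nat.eventually (eventually_ge_atTop (2000 : ℝ))
  have e5 : ∀ᶠ L : ℝ in atTop, Real.log L ≤ L ^ (1 - ε / 4) := by
    have := (isLittleO_log_rpow_atTop hη1').bound (show (0 : ℝ) < 1 by norm_num)
    filter_upwards [this, eventually_ge_atTop 1] with L hL h1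
    rw [Real.norm_of_nonneg (Real.log_nonneg h1), Real.norm_of_nonneg (by positivity), one_mul] at hL
    exact hL
  have e5' := tendsto_log_nat.eventually e5
  have e6 : ∀ᶠ L : ℝ in atTop, L ^ (1 - ε / 4) ≤ L / 2 := by
    have h1 := ev_log_pow 1 0 hη0 (show (0 : ℝ) < 1 / 2 by norm_num)
    filter_upwards [h1, eventually_gt_atTop 0] with L hL h0
    rw [pow_zero, one_mul, one_mul] at hL
    rw [sub_eq_add_neg, Real.rpow_add h0, Real.rpow_one]
    calc L * L ^ (-(ε / 4)) ≤ L * (1 / 2) := mul_le_mul_of_nonneg_left hL h0.le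
      _ = L / 2 := by ring
  have e6' := tendsto_log_nat.eventually e6
  have e7 := tendsto_log_nat.eventually
    (ev_log_pow (Real.exp 20 * 20000 * C ^ 2) 6 (κ := ε / 2) (δ := 1 / 20) (by linarith) (by norm_num))
  have e8 := tendsto_log_nat.eventually
    (ev_log_pow (800 * C) 3 (κ := 3 * ε / 4) (δ := 1 / 20) (by linarith) (by norm_num))
  -- `20 L ≤ exp L`
  have e9 : ∀ᶠ L : ℝ in atTop, L ^ 3 ≤ Real.exp L := by
    have h1 := Real.tendsto_pow_mul_exp_neg_atTop_nhds_zero 3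
    have h2 := h1.eventually (ge_mem_nhds (show (0 : ℝ) < 1 by norm_num))
    filter_upwards [h2] with L hL
    rw [Real.exp_neg, ← div_eq_mul_inv, div_le_one (Real.exp_pos L)] at hL
    exact hL
  have e9' := tendsto_log_nat.eventually e9
  filter_upwards [e1, e2, e3, e4, e5', e6', e7, e8, e9', eventually_ge_atTop 1000000]
    with z h1 h2 h3 h4 h5 h6 h7 h8 h9 hz
  set L := Real.log z with hL
  have hL0 : 0 < L := by linarith
  have hL1 : 1 ≤ L := by linarith
  have hz0 : (0 : ℝ) < z := by exact_mod_cast (by omega : 0 < z)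
  have hexpL : Real.exp L = z := Real.exp_log hz0
  rw [hexpL] at h9
  have hl0 : 0 < Real.log L := Real.log_pos (by linarith)
  set w := ⌊Real.exp (L ^ (1 - ε / 4))⌋₊ with hw
  set T := ⌊L⌋₊ with hT
  set yB := ⌊(z : ℝ) * L ^ (3 - ε)⌋₊ with hyB
  set yA := ⌊(z : ℝ) * L ^ (2 - ε)⌋₊ with hyA
  have hT1024 : 1024 ≤ T := Nat.le_floor (by push_cast; linarith)
  have hTw : T ≤ w := by
    apply Nat.floor_le_floor
    calc L = Real.exp (Real.log L) := (Real.exp_log hL0).symm
      _ ≤ _ := Real.exp_le_exp.mpr h5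
  -- `2 w ≤ z / 8`
  have h2w : 2 * w ≤ z / 8 := by
    have a1 : (w : ℝ) ≤ Real.exp (L ^ (1 - ε / 4)) := Nat.floor_le (Real.exp_pos _).le
    have a2 : Real.exp (L ^ (1 - ε / 4)) ≤ Real.exp (L / 2) := Real.exp_le_exp.mpr h6
    have a3 : Real.exp (L / 2) ^ 2 = z := by
      rw [← Real.exp_nat_mul, ← hexpL]; congr 1; push_cast; ring
    have a4 : (w : ℝ) ^ 2 ≤ z := by
      rw [← a3]
      exact pow_le_pow_left₀ (by positivity) (a1.trans a2) 2
    have a5 : w ^ 2 ≤ z := by exact_mod_cast a4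
    rw [Nat.le_div_iff_mul_le (by norm_num)]
    by_contra hcon
    push Not at hcon
    have a6 : z < 16 * w := by omega
    have a7 : w < 16 := by nlinarith
    omega
  have hwz : w ≤ z / 8 := by omega
  have hne : (PP w (z / 8)).Nonempty := by
    obtain ⟨p, hp, hp1, hp2⟩ := Nat.exists_prime_lt_and_le_two_mul w (by omega)
    exact ⟨p, mem_PP.mpr ⟨hp1, by omega, hp⟩⟩
  -- sizes of `yB`, `yA`
  have hL3 : 1 ≤ L ^ (3 - ε) := Real.one_le_rpow hL1 (by linarith)
  have hL2 : 1 ≤ L ^ (2 - ε) := Real.one_le_rpow hL1 (by linarith)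
  have hL23 : L ^ (2 - ε) ≤ L ^ (3 - ε) := Real.rpow_le_rpow_of_exponent_le hL1 (by linarith)
  have hyBz : z ≤ yB := Nat.le_floor (by nlinarith)
  have hyAz : z ≤ yA := Nat.le_floor (by nlinarith)
  have hyAB : yA ≤ yB := Nat.floor_le_floor (mul_le_mul_of_nonneg_left hL23 hz0.le)
  have hyB' : (yB : ℝ) ≤ z * L ^ (3 - ε) := Nat.floor_le (by positivity)
  have hyA' : (yA : ℝ) ≤ z * L ^ (2 - ε) := Nat.floor_le (by positivity)
  have hL3' : L ^ (3 - ε) ≤ L ^ 3 := by
    calc L ^ (3 - ε) ≤ L ^ (3 : ℝ) := Real.rpow_le_rpow_of_exponent_le hL1 (by linarith)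
      _ = L ^ 3 := by norm_cast
  have hyB0 : (0 : ℝ) < yB := by exact_mod_cast (by omega : 0 < yB)
  -- `yB < T ^ k`
  set k := ⌊2 * L⌋₊ + 1 with hk
  have hTk : yB < T ^ k := by
    have a1 : (yB : ℝ) ≤ z * z := hyB'.trans (mul_le_mul_of_nonneg_left (hL3'.trans h9) hz0.le)
    have a2 : (z : ℝ) * z = Real.exp (2 * L) := by
      rw [← hexpL, ← Real.exp_add]; congr 1; ring
    have a3 : 2 * L < k := by
      have := Nat.lt_floor_add_one (2 * L)
      rw [hk]; push_cast; exact this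
    have a4 : Real.exp (2 * L) < (T : ℝ) ^ k := by
      calc Real.exp (2 * L) < Real.exp k := Real.exp_lt_exp.mpr a3
        _ = Real.exp 1 ^ k := by rw [← Real.exp_nat_mul, mul_one]
        _ ≤ (T : ℝ) ^ k := by
          apply pow_le_pow_left₀ (Real.exp_pos 1).le
          have := Real.exp_one_lt_d9
          have : (1024 : ℝ) ≤ T := by exact_mod_cast hT1024
          linarith
    have a5 : (yB : ℝ) < (T : ℝ) ^ k := by linarith
    exact_mod_cast a5
  have hexp20 : Real.exp (4 * k / T) ≤ Real.exp 20 := by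
    apply Real.exp_le_exp.mpr
    have a1 : (k : ℝ) ≤ 2 * L + 1 := by
      rw [hk]; push_cast
      have := Nat.floor_le (show 0 ≤ 2 * L by positivity)
      linarith
    have a2 : L - 1 ≤ T := by
      have := Nat.lt_floor_add_one L
      rw [← hT] at this
      linarith
    rw [div_le_iff₀ (by linarith)]
    linarith
  have hY1 : z ≤ 2 * yB := by omega
  have hY2 : ((2 * yB : ℕ) : ℝ) ≤ z * L ^ 4 := by
    push_cast
    have a1 : 2 * (z * L ^ (3 - ε)) ≤ z * L ^ 4 := by
      have : 2 * L ^ 3 ≤ L ^ 4 := by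
        have : L ^ 4 = L * L ^ 3 := by ring
        rw [this]
        apply mul_le_mul_of_nonneg_right (by linarith) (by positivity)
      calc 2 * (z * L ^ (3 - ε)) ≤ 2 * (z * L ^ 3) := by
            apply mul_le_mul_of_nonneg_left _ (by norm_num)
            exact mul_le_mul_of_nonneg_left hL3' hz0.le
        _ = z * (2 * L ^ 3) := by ring
        _ ≤ _ := mul_le_mul_of_nonneg_left this hz0.le
    linarith
  have hR := h2 (2 * yB) hY1 hY2
  push_cast at hR
  have hPA : ((PP 0 yA).card : ℝ) ≤ 4 * (z * L ^ (2 - ε)) / L := by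
    have a1 := pi_upper (y := yA) (by omega)
    refine a1.trans ?_
    apply div_le_div₀ (by positivity) (by linarith) hL0
    exact Real.log_le_log hz0 (by exact_mod_cast hyAz)
  -- the main inequality
  set a := L ^ (1 - ε / 4) with ha
  have ha0 : 0 < a := Real.rpow_pos_of_pos hL0 _
  have hV0 := VV_nonneg T w
  have hid1 : L ^ (3 - ε) * L = L ^ (-(ε / 2)) * (a ^ 2 * L ^ 2) := by
    rw [ha]
    have b1 : L ^ (3 - ε) * L = L ^ (4 - ε) := by
      nth_rewrite 2 [← Real.rpow_one L]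
      rw [← Real.rpow_add hL0]; congr 1; ring
    have b2 : L ^ (-(ε / 2)) * ((L ^ (1 - ε / 4)) ^ 2 * L ^ 2) = L ^ (4 - ε) := by
      rw [← Real.rpow_natCast, ← Real.rpow_natCast, ← Real.rpow_mul hL0.le, ← Real.rpow_add hL0,
        ← Real.rpow_add hL0]
      congr 1; push_cast; ring
    rw [b1, b2]
  have hid2 : L ^ (2 - ε) * L = L ^ (-(3 * ε / 4)) * (a * L ^ 2) := by
    rw [ha]
    have b1 : L ^ (2 - ε) * L = L ^ (3 - ε) := by
      nth_rewrite 2 [← Real.rpow_one L]
      rw [← Real.rpow_add hL0]; congr 1; ring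
    have b2 : L ^ (-(3 * ε / 4)) * (L ^ (1 - ε / 4) * L ^ 2) = L ^ (3 - ε) := by
      rw [← Real.rpow_natCast, ← Real.rpow_add hL0, ← Real.rpow_add hL0]
      congr 1; push_cast; ring
    rw [b1, b2]
  have hterm1 : Real.exp (4 * k / T) * VV T w ^ 2 * (2 * ((RR (PP w (z / 8)) (2 * yB)).card : ℝ) ^ 2)
      ≤ yB * (z / L * (1 / 20)) := by
    have c1 : VV T w ^ 2 ≤ (C * Real.log L ^ 2 / a) ^ 2 := pow_le_pow_left₀ hV0 h1 2
    have c2 : ((RR (PP w (z / 8)) (2 * yB)).card : ℝ) ^ 2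
        ≤ (50 * (2 * yB) * Real.log L / L) ^ 2 := pow_le_pow_left₀ (by positivity) hR 2
    calc _ ≤ Real.exp 20 * (C * Real.log L ^ 2 / a) ^ 2
            * (2 * (50 * (2 * yB) * Real.log L / L) ^ 2) := by
          apply mul_le_mul _ _ (by positivity) (by positivity)
          · exact mul_le_mul hexp20 c1 (by positivity) (by positivity)
          · exact mul_le_mul_of_nonneg_left c2 (by norm_num)
      _ = yB * ((Real.exp 20 * 20000 * C ^ 2) * Real.log L ^ 6) * (yB / (a ^ 2 * L ^ 2)) := by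
          field_simp; ring
      _ ≤ yB * ((Real.exp 20 * 20000 * C ^ 2) * Real.log L ^ 6)
            * (z * L ^ (3 - ε) / (a ^ 2 * L ^ 2)) := by
          apply mul_le_mul_of_nonneg_left _ (by positivity)
          exact div_le_div_of_nonneg_right hyB' (by positivity)
      _ = yB * (z / L * ((Real.exp 20 * 20000 * C ^ 2) * Real.log L ^ 6 * L ^ (-(ε / 2)))) := by
          have : L ^ (3 - ε) / (a ^ 2 * L ^ 2) = L ^ (-(ε / 2)) / L := by
            rw [div_eq_div_iff (by positivity) hL0.ne', hid1]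
          rw [mul_div_assoc (z : ℝ), this]
          ring
      _ ≤ yB * (z / L * (1 / 20)) := by
          apply mul_le_mul_of_nonneg_left _ hyB0.le
          exact mul_le_mul_of_nonneg_left h7 (by positivity)
  have hterm2 : VV T w * (2 * ((PP 0 yA).card : ℝ) * ((RR (PP w (z / 8)) (2 * yB)).card : ℝ))
      ≤ yB * (z / L * (1 / 20)) := by
    calc _ ≤ (C * Real.log L ^ 2 / a) * (2 * (4 * (z * L ^ (2 - ε)) / L)
            * (50 * (2 * yB) * Real.log L / L)) := by
          apply mul_le_mul h1 _ (by positivity) (by positivity)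
          apply mul_le_mul _ hR (by positivity) (by positivity)
          exact mul_le_mul_of_nonneg_left hPA (by norm_num)
      _ = yB * (800 * C * Real.log L ^ 3) * (z * (L ^ (2 - ε) / (a * L ^ 2))) := by
          field_simp; ring
      _ = yB * (z / L * (800 * C * Real.log L ^ 3 * L ^ (-(3 * ε / 4)))) := by
          have : L ^ (2 - ε) / (a * L ^ 2) = L ^ (-(3 * ε / 4)) / L := by
            rw [div_eq_div_iff (by positivity) hL0.ne', hid2]
          rw [this]
          ring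
      _ ≤ yB * (z / L * (1 / 20)) := by
          apply mul_le_mul_of_nonneg_left _ hyB0.le
          exact mul_le_mul_of_nonneg_left h8 (by positivity)
  have hone : 1 ≤ z / L * (1 / 20) := by
    have a1 : 20 * L ≤ L ^ 3 := by nlinarith
    have a2 : 20 * L ≤ z := a1.trans h9
    have : z / L * (1 / 20) = z / (20 * L) := by field_simp
    rw [this, le_div_iff₀ (by positivity)]
    linarith
  have hmain : 1 + (Real.exp (4 * k / T) * VV T w ^ 2
        * (2 * ((RR (PP w (z / 8)) (2 * yB)).card : ℝ) ^ 2)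
        + VV T w * (2 * ((PP 0 yA).card : ℝ) * ((RR (PP w (z / 8)) (2 * yB)).card : ℝ))) / yB
      ≤ (PP (z / 8) z).card := by
    have a1 : (Real.exp (4 * k / T) * VV T w ^ 2
        * (2 * ((RR (PP w (z / 8)) (2 * yB)).card : ℝ) ^ 2)
        + VV T w * (2 * ((PP 0 yA).card : ℝ) * ((RR (PP w (z / 8)) (2 * yB)).card : ℝ))) / yB
        ≤ z / L * (1 / 20) + z / L * (1 / 20) := by
      rw [div_le_iff₀ hyB0]
      linarith
    have a2 : (z : ℝ) / (5 * L) = 4 * (z / L * (1 / 20)) := by field_simp; norm_num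
    have a3 : 0 ≤ z / L * (1 / 20) := by positivity
    linarith
  obtain ⟨r, hr1, hr2⟩ := exists_kill (T := T) (w := w) (z₁ := z / 8) (z := z) (yA := yA)
    (yB := yB) (k := k) (by omega) hTw hwz (Nat.div_le_self z 8) hne (by omega) (by omega) hTk hmain
  have hsub : ∀ q ∈ PP T z, q ∈ PP 2 z := by
    intro q hq
    rw [mem_PP] at hq ⊢
    exact ⟨by omega, hq.2.1, hq.2.2⟩
  refine ⟨r, ?_, ?_⟩
  · intro p hp
    obtain ⟨q, hq, hq'⟩ := hr1 p hp
    exact ⟨q, hsub q hq, hq'⟩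
  · intro x hx
    obtain ⟨q, hq, hq'⟩ := hr2 x hx
    exact ⟨q, hsub q hq, hq'⟩

end Pool.Agent.H10.GoldLoc
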