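import Pool.Agent.H10.GoldLoc.Kill
import Pool.Agent.H91.GoldMertens

/-!
Sums and products over primes.
-/

namespace Pool.Agent.H10.GoldLoc

open Finset Real
open Pool.Agent.H91.Gold (Mt Mt_le Mt_ge abel_le)
open scoped ArithmeticFunction.vonMangoldt

/-- Passing from a Mertens type bound for `∑ log p / p` to one for `∑ 1 / p`. -/
theorem mertens_gen' {w z : ℕ} (hw : 2 ≤ w) (hwz : w ≤ z) {c : ℝ} (hc : 0 ≤ c)
    (h : ∀ m, w ≤ m → m ≤ z → Mt m - Mt w ≤ Real.log m - Real.log w + c) :
    ∑ p ∈ PP w z, (1 : ℝ) / p ≤ Real.log (Real.log z / Real.log w) + c / Real.log w := by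
  have hlw : 0 < Real.log w := Real.log_pos (by exact_mod_cast (by omega : 1 < w))
  have hlog : ∀ k : ℕ, w ≤ k → 0 < Real.log k := by
    intro k hk
    apply Real.log_pos
    exact_mod_cast (by omega : 1 < k)
  have h1 : ∑ p ∈ PP w z, (1 : ℝ) / p
      = ∑ k ∈ Ioc w z, (if k.Prime then Real.log k / k else 0) * (1 / Real.log k) := by
    unfold PP
    rw [sum_filter]
    apply sum_congr rfl
    intro k hk
    rw [mem_Ioc] at hk
    split_ifs with hp
    · have := (hlog k hk.1.le).ne'
      field_simp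
    · simp
  have h2 : ∑ k ∈ Ioc w z, (if k.Prime then Real.log k / k else 0) * (1 / Real.log k)
      ≤ ∑ k ∈ Ioc w z, (Real.log k - Real.log (k - 1 : ℕ)) * (1 / Real.log k)
        + c * (1 / Real.log ((w + 1 : ℕ) : ℝ)) := by
    apply abel_le hwz hc
    · intro k hk1 _
      have := hlog k hk1.le
      positivity
    · have := hlog (w + 1) (by omega)
      positivity
    · intro k hk1 _
      have := hlog k hk1.le
      apply one_div_le_one_div_of_le this
      apply Real.log_le_log
      · exact_mod_cast (by omega : 0 < k)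
      · push_cast; linarith
    · intro m hm1 hm2
      have e1 : ∑ k ∈ Ioc w m, (Real.log k - Real.log (k - 1 : ℕ)) = Real.log m - Real.log w := by
        clear hm2
        induction m, hm1 using Nat.le_induction with
        | base => simp
        | succ m hm ih =>
          rw [sum_Ioc_succ_top (by omega), ih]
          simp
      have e2 : ∑ k ∈ Ioc w m, (if k.Prime then Real.log k / k else 0) ≤ Mt m - Mt w := by
        have e3 : Mt m - Mt w = ∑ k ∈ Ioc w m, Λ k / k := by
          unfold Mt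
          rw [← sum_Ioc_consecutive _ (Nat.zero_le w) hm1]
          ring
        rw [e3]
        apply sum_le_sum
        intro k _
        split_ifs with hp
        · rw [ArithmeticFunction.vonMangoldt_apply_prime hp]
        · have := ArithmeticFunction.vonMangoldt_nonneg (n := k)
          positivity
      rw [e1]
      exact e2.trans (h m hm1 hm2)
  have h3 : ∀ m, w ≤ m → ∑ k ∈ Ioc w m, (Real.log k - Real.log (k - 1 : ℕ)) * (1 / Real.log k)
      ≤ Real.log (Real.log m) - Real.log (Real.log w) := by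
    intro m hm
    induction m, hm using Nat.le_induction with
    | base => simp
    | succ m hm ih =>
      rw [sum_Ioc_succ_top (by omega)]
      have a1 := hlog m hm
      have a2 := hlog (m + 1) (by omega)
      have a3 : (Real.log ((m + 1 : ℕ) : ℝ) - Real.log (m + 1 - 1 : ℕ)) * (1 / Real.log ((m + 1 : ℕ) : ℝ))
          ≤ Real.log (Real.log ((m + 1 : ℕ) : ℝ)) - Real.log (Real.log m) := by
        have b1 := Real.log_le_sub_one_of_pos (x := Real.log m / Real.log ((m + 1 : ℕ) : ℝ)) (by positivity)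
        rw [Real.log_div a1.ne' a2.ne'] at b1
        rw [Nat.add_sub_cancel]
        have b2 : (Real.log ((m + 1 : ℕ) : ℝ) - Real.log m) * (1 / Real.log ((m + 1 : ℕ) : ℝ))
            = 1 - Real.log m / Real.log ((m + 1 : ℕ) : ℝ) := by
          field_simp
        rw [b2]
        linarith
      linarith
  have h4 := h3 z hwz
  have h5 : c * (1 / Real.log ((w + 1 : ℕ) : ℝ)) ≤ c / Real.log w := by
    rw [mul_one_div]
    apply div_le_div_of_nonneg_left hc hlw
    apply Real.log_le_log
    · exact_mod_cast (by omega : 0 < w)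
    · push_cast; linarith
  rw [h1, Real.log_div (hlog z hwz).ne' hlw.ne']
  linarith

lemma PP_union {a b c : ℕ} (hab : a ≤ b) (hbc : b ≤ c) : PP a c = PP a b ∪ PP b c := by
  ext q
  rw [mem_union, mem_PP, mem_PP, mem_PP]
  constructor
  · rintro ⟨h1, h2, h3⟩
    by_cases h : q ≤ b
    · exact Or.inl ⟨h1, h, h3⟩
    · exact Or.inr ⟨by omega, h2, h3⟩
  · rintro (⟨h1, h2, h3⟩ | ⟨h1, h2, h3⟩)
    · exact ⟨h1, by omega, h3⟩
    · exact ⟨by omega, h2, h3⟩

lemma PP_disjoint {a b c : ℕ} : Disjoint (PP a b) (PP b c) := by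
  rw [disjoint_left]
  intro q hq hq'
  rw [mem_PP] at hq hq'
  omega

/-- `∑_{p ≤ z} 1/p ≤ log log z + C`. -/
theorem exists_mertens : ∃ C : ℝ, 0 ≤ C ∧ ∀ z : ℕ, 1024 ≤ z →
    ∑ p ∈ PP 0 z, (1 : ℝ) / p ≤ Real.log (Real.log z) + C := by
  have hl1 : 1 < Real.log (1024 : ℕ) := by
    rw [show ((1024 : ℕ) : ℝ) = (2 : ℝ) ^ (10 : ℕ) by norm_num, Real.log_pow]
    have := Real.log_two_gt_d9
    push_cast
    linarith
  refine ⟨∑ p ∈ PP 0 1024, (1 : ℝ) / p + 1.0818, by positivity, ?_⟩
  intro z hz
  rw [PP_union (Nat.zero_le 1024) hz, sum_union PP_disjoint]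
  have h := mertens_gen' (w := 1024) (z := z) (by norm_num) hz (c := 1.0818) (by norm_num) (by
    intro m hm1 _
    have a1 := Mt_le m (by omega)
    have a2 := Mt_ge 1024 (by omega)
    simp only [Nat.cast_ofNat] at a1 a2 ⊢
    linarith)
  have hlz : 0 < Real.log z := Real.log_pos (by exact_mod_cast (by omega : 1 < z))
  have h2 : Real.log (Real.log z / Real.log (1024 : ℕ)) ≤ Real.log (Real.log z) := by
    apply Real.log_le_log (by positivity)
    rw [div_le_iff₀ (by linarith)]
    nlinarith
  have h3 : (1.0818 : ℝ) / Real.log (1024 : ℕ) ≤ 1.0818 := by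
    apply div_le_self (by norm_num) hl1.le
  linarith

/-- The product of `1 - 1/q` over `q ≤ w` is at most `1 / log w`. -/
theorem prod_le_inv_log {w : ℕ} (hw : 2 ≤ w) :
    ∏ q ∈ PP 0 w, (1 - (1 : ℝ) / q) ≤ 1 / Real.log w := by
  have hlw : 0 < Real.log w := Real.log_pos (by exact_mod_cast (by omega : 1 < w))
  let f : ℕ →* ℝ :=
    { toFun := fun n => ((n : ℝ))⁻¹
      map_one' := by simp
      map_mul' := by intro a b; push_cast; rw [mul_inv] }
  have hf : ∀ {p : ℕ}, p.Prime → ‖f p‖ < 1 := by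
    intro p hp
    show ‖((p : ℝ))⁻¹‖ < 1
    have h1 : (1 : ℝ) < p := by exact_mod_cast hp.one_lt
    rw [norm_inv, Real.norm_of_nonneg (by linarith)]
    exact inv_lt_one_of_one_lt₀ h1
  obtain ⟨hs, hsum⟩ :=
    EulerProduct.summable_and_hasSum_smoothNumbers_prod_primesBelow_geometric (f := f) hf (w + 1)
  have hPP : (w + 1).primesBelow = PP 0 w := by
    ext q
    rw [Nat.mem_primesBelow, mem_PP]
    constructor
    · rintro ⟨h1, h2⟩; exact ⟨h2.pos, by omega, h2⟩
    · rintro ⟨h1, h2, h3⟩; exact ⟨by omega, h3⟩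
  have h1 : Real.log w ≤ ∏ p ∈ PP 0 w, (1 - f p)⁻¹ := by
    rw [← hPP]
    have h2 : ∑ m ∈ Icc 1 w, ((m : ℝ))⁻¹ ≤ ∏ p ∈ (w + 1).primesBelow, (1 - f p)⁻¹ := by
      have h3 := sum_le_hasSum
        ((Icc 1 w).attach.image (fun m => (⟨m.1, Nat.mem_smoothNumbers_of_lt
          (by have := (mem_Icc.mp m.2).1; omega) (by have := (mem_Icc.mp m.2).2; omega)⟩ :
          (w + 1).smoothNumbers))) (fun m _ => by
            show 0 ≤ ((m.1 : ℝ))⁻¹
            positivity) hsum
      rw [sum_image (by
        intro a _ b _ hab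
        simp only [Subtype.mk.injEq] at hab
        exact Subtype.ext hab)] at h3
      refine le_trans (le_of_eq ?_) h3
      rw [← sum_attach]
      rfl
    have h4 := log_add_one_le_harmonic w
    rw [harmonic_eq_sum_Icc] at h4
    push_cast at h4
    have h5 : Real.log w ≤ Real.log ((w : ℝ) + 1) :=
      Real.log_le_log (by exact_mod_cast (by omega : 0 < w)) (by linarith)
    linarith
  rw [prod_inv_distrib] at h1
  have h6 : ∏ q ∈ PP 0 w, (1 - (1 : ℝ) / q) = ∏ q ∈ PP 0 w, (1 - f q) := by
    apply prod_congr rfl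
    intro q _
    show 1 - (1 : ℝ) / q = 1 - ((q : ℝ))⁻¹
    rw [one_div]
  rw [h6]
  have hpos : 0 < ∏ q ∈ PP 0 w, (1 - f q) := by
    apply prod_pos
    intro q hq
    rw [mem_PP] at hq
    have := hf hq.2.2
    have h7 := (abs_lt.mp (by rwa [Real.norm_eq_abs] at this)).2
    linarith
  rw [le_div_iff₀ hlw]
  calc _ ≤ (∏ q ∈ PP 0 w, (1 - f q)) * (∏ q ∈ PP 0 w, (1 - f q))⁻¹ :=
        mul_le_mul_of_nonneg_left h1 hpos.le
    _ = 1 := mul_inv_cancel₀ hpos.ne'

/-- The product over `(T, w]`. -/
theorem exists_VV : ∃ C : ℝ, 0 < C ∧ ∀ T w : ℕ, 1024 ≤ T → T ≤ w →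
    VV T w ≤ C * Real.log T ^ 2 / Real.log w := by
  obtain ⟨C, hC, hM⟩ := exists_mertens
  refine ⟨Real.exp (2 * C), Real.exp_pos _, ?_⟩
  intro T w hT hTw
  have hlT : 0 < Real.log T := Real.log_pos (by exact_mod_cast (by omega : 1 < T))
  have hlw : 0 < Real.log w := Real.log_pos (by exact_mod_cast (by omega : 1 < w))
  have h1 := prod_le_inv_log (w := w) (by omega)
  rw [PP_union (Nat.zero_le T) hTw, prod_union PP_disjoint] at h1
  -- lower bound for the first factor
  have h2 : Real.exp (-(2 * (Real.log (Real.log T) + C))) ≤ ∏ q ∈ PP 0 T, (1 - (1 : ℝ) / q) := by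
    calc Real.exp (-(2 * (Real.log (Real.log T) + C)))
        ≤ Real.exp (-(2 * ∑ q ∈ PP 0 T, (1 : ℝ) / q)) := by
          apply Real.exp_le_exp.mpr
          have := hM T hT
          linarith
      _ = ∏ q ∈ PP 0 T, Real.exp (-(2 * ((1 : ℝ) / q))) := by
          rw [← Real.exp_sum, mul_sum, sum_neg_distrib]
      _ ≤ _ := by
          apply prod_le_prod
          · intro q _; positivity
          · intro q hq
            rw [mem_PP] at hq
            have hq2 : (2 : ℝ) ≤ q := by exact_mod_cast hq.2.2.two_le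
            set t : ℝ := 1 / (q : ℝ) with ht
            have ht0 : 0 < t := by positivity
            have ht2 : t ≤ 1 / 2 := one_div_le_one_div_of_le (by norm_num) hq2
            have h6 : 1 + 2 * t ≤ Real.exp (2 * t) := by
              have := Real.add_one_le_exp (2 * t)
              linarith
            rw [Real.exp_neg, inv_le_comm₀ (Real.exp_pos _) (by linarith)]
            refine le_trans ?_ h6
            rw [inv_le_comm₀ (by linarith) (by linarith), inv_eq_one_div, div_le_iff₀ (by linarith)]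
            nlinarith
  have h3 : Real.exp (-(2 * (Real.log (Real.log T) + C))) * VV T w ≤ 1 / Real.log w :=
    (mul_le_mul_of_nonneg_right h2 (VV_nonneg T w)).trans h1
  have h4 : Real.exp (2 * (Real.log (Real.log T) + C)) = Real.exp (2 * C) * Real.log T ^ 2 := by
    rw [mul_add, Real.exp_add, mul_comm 2 (Real.log (Real.log T)), Real.exp_mul, Real.exp_log hlT]
    rw [mul_comm]
    congr 1
    norm_cast
  have h5 : VV T w = Real.exp (2 * (Real.log (Real.log T) + C))
      * (Real.exp (-(2 * (Real.log (Real.log T) + C))) * VV T w) := by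
    rw [← mul_assoc, ← Real.exp_add]
    simp
  rw [h5, h4]
  calc _ ≤ Real.exp (2 * C) * Real.log T ^ 2 * (1 / Real.log w) :=
        mul_le_mul_of_nonneg_left h3 (by positivity)
    _ = _ := by ring

end Pool.Agent.H10.GoldLoc
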